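import Pool.Agent.H43.TP.Alg
import Pool.Agent.H76.GB.Sing

/-!
# TS: abstract final part for certificates `1_P(u) 1_P(v) ≥ ∑_j (X_j(u) Y_j(v) + Y_j(u) X_j(v))` (MP_967f73_nt): definitions

Blocks `blk H i = [iH, (i+1)H)`, `H = Hn θ N`, `R = Rn B N`, `L = log N`, `rf H i f g n = ∑_{u ∈ blk H i} f(u) g(2n-u)`.
* `X_j` is locally Fourier uniform: `badF N H R A X k` has few elements (`k i` = density of `X` in the block `i`);
* `Y_j` has the right main term: `badM N H R D Y l` has few elements (`l i` = density of `Y` in the block `i`).  It follows from LFU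
  (`MpL`), from the equidistribution in almost all blocks and reflected blocks (`badQ`, `badQN`, `MpW`), and holds for `pr` (`Pr`).
* `badE`: the `n` where `∑ Y(u) (X - k lamR)(2n - u)` is large.
-/

set_option autoImplicit false

namespace Pool.Agent.H43.TS

open Finset
open Pool.Agent.H91.PK (ee)
open Pool.Agent.H91.EHA (Lam lamR)
open Pool.Agent.H43.MP (blk Hn idx Rn)
open Pool.Agent.H43.TP (rf Fh badF pr)
open Pool.Agent.H76.GB (SR)

open Classical in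
/-- the blocks where `G` is not equidistributed with the density `g` -/
noncomputable def badQ (N H A B : ℕ) (G g : ℕ → ℝ) : Finset ℕ :=
  (idx N H).filter (fun i => ∃ r a : ℕ, 1 ≤ r ∧ (r : ℝ) ≤ Real.log N ^ B ∧ Nat.Coprime a r ∧
    (H : ℝ) / Real.log N ^ A < ‖∑ m ∈ blk H i, ((G m : ℝ) : ℂ) * ee (-((a : ℝ) * m / r))
      - (((ArithmeticFunction.moebius r : ℝ) / (r.totient : ℝ) * (H * g i) : ℝ) : ℂ)‖)

open Classical in
/-- the `n` where `G` is not equidistributed in the reflected block -/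
noncomputable def badQN (N H A B : ℕ) (G g : ℕ → ℝ) : Finset ℕ :=
  (Ioc N (2 * N)).filter (fun n => ∃ r a : ℕ, 1 ≤ r ∧ (r : ℝ) ≤ Real.log N ^ B ∧ Nat.Coprime a r ∧
    (H : ℝ) / Real.log N ^ A <
      ‖∑ u ∈ blk H (n / H), ((G (2 * n - u) : ℝ) : ℂ) * ee (-((a : ℝ) * ((2 * n - u : ℕ) : ℝ) / r))
      - (((ArithmeticFunction.moebius r : ℝ) / (r.totient : ℝ) * (H * g (n / H)) : ℝ) : ℂ)‖)

open Classical in
/-- the `n` where the correlation of `G` with `Λ_R` is wrong -/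
noncomputable def badM (N H R D : ℕ) (G g : ℕ → ℝ) : Finset ℕ :=
  (Ioc N (2 * N)).filter (fun n =>
    (H : ℝ) / Real.log N ^ D < |rf H (n / H) (lamR R) G n - g (n / H) * (H * SR R (2 * n))| ∨
    (H : ℝ) / Real.log N ^ D < |rf H (n / H) G (lamR R) n - g (n / H) * (H * SR R (2 * n))|)

open Classical in
/-- the `n` where the correlation of `Y` with `X - k Λ_R` is not small -/
noncomputable def badE (N H R D : ℕ) (X k Y : ℕ → ℝ) : Finset ℕ :=
  (Ioc N (2 * N)).filter (fun n =>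
    (H : ℝ) / Real.log N ^ D < |rf H (n / H) Y (Fh R (k (n / H)) X) n| ∨
    (H : ℝ) / Real.log N ^ D < |rf H (n / H) (Fh R (k (n / H)) X) Y n|)

/-- the certificate: the black box of the final part -/
def CERT (θ c : ℝ) (s : ℕ) : Prop := ∃ C : ℕ, ∀ A : ℕ, ∃ B N0 : ℕ, ∀ N : ℕ, N0 ≤ N →
  ∃ X Y k l : Fin s → ℕ → ℝ,
    (∀ u v : ℕ, N ≤ 4 * u → u ≤ 4 * N → N ≤ 4 * v → v ≤ 4 * N →
      ∑ j, (X j u * Y j v + Y j u * X j v) ≤ pr u * pr v) ∧
    (∀ j, ∀ i ∈ idx N (Hn θ N), |k j i| ≤ 1) ∧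
    (∀ j, ∀ i ∈ idx N (Hn θ N), ∑ m ∈ blk (Hn θ N) i, Y j m ^ 2 ≤ Hn θ N * Real.log N ^ C) ∧
    (∀ j, ∀ i ∈ idx N (Hn θ N), i + 1 ∈ idx N (Hn θ N) → |k j i - k j (i + 1)| ≤ 1 / Real.log N ^ A) ∧
    (∀ j, ((badF N (Hn θ N) (Rn B N) A (X j) (k j)).card : ℝ) ≤ (N : ℝ) / (Hn θ N) / Real.log N ^ A) ∧
    (∀ j, ((badM N (Hn θ N) (Rn B N) 3 (Y j) (l j)).card : ℝ) ≤ (N : ℝ) / Real.log N ^ A) ∧
    (∀ i ∈ idx N (Hn θ N), c / Real.log N ^ 2 ≤ 2 * ∑ j, k j i * l j i)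

end Pool.Agent.H43.TS
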