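import Pool.Agent.H43.TS.Pair

/-!
# TS Wd: equidistribution in the blocks and the reflected blocks from the mean square over all windows

`WDx` (project EQ, helper31): `∑_{N/8 ≤ x ≤ 8N} (∑_{n ∈ (x, x+H], n = c (d)} Y n - [(c,d)=1] H η(x)/φ(d))^2 ≤ N H^2/L^A1` for all `d ≤ L^B`, `c`.
* Blocks: if the class sum over `blk H i` deviates by `> H/L^A'`, so do the windows of `x = iH - 1 + j`, `0 ≤ j ≤ δ = H/(16 M L^A')`, by `> H/(2 L^A')`.
* Reflected blocks: `{2n - u : u ∈ blk H (n/H)} = (x, x+H]`, `x = 2n - (n/H + 1) H`, every `x` is taken at most twice.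
* Twists: `∑_{c mod r} ee(-ac/r)` of the class sums; `∑_{(c,r)=1} ee(-ac/r) = μ(r)`.
-/

set_option autoImplicit false

namespace Pool.Agent.H43.TS

open Finset
open Pool.Agent.H91.PK (ee)
open Pool.Agent.H91.EHA (Lam lamR ramS)
open Pool.Agent.H43.MP (blk Hn idx Rn)

/-- shifting the window by `j` -/
private theorem Wd_shift (f : ℕ → ℝ) {K : ℝ} (a j H X : ℕ) (ha : 1 ≤ a)
    (hX : a + H + j ≤ X) (hK : ∀ n, 1 ≤ n → n ≤ X → |f n| ≤ K) :
    |∑ n ∈ Ioc (a - 1 + j) (a - 1 + j + H), f n - ∑ n ∈ Ico a (a + H), f n| ≤ 2 * (j * K) := by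
  have e1 : Ioc (a - 1 + j) (a - 1 + j + H) = Ico (a + j) (a + j + H) := by
    ext n
    simp only [mem_Ioc, mem_Ico]
    omega
  have s1 : ∑ n ∈ Ico a (a + H), f n + ∑ n ∈ Ico (a + H) (a + H + j), f n =
      ∑ n ∈ Ico a (a + H + j), f n := Finset.sum_Ico_consecutive f (by omega) (by omega)
  have s2 : ∑ n ∈ Ico a (a + j), f n + ∑ n ∈ Ico (a + j) (a + j + H), f n =
      ∑ n ∈ Ico a (a + j + H), f n := Finset.sum_Ico_consecutive f (by omega) (by omega)
  have e2 : a + j + H = a + H + j := by omega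
  rw [e2] at s2
  rw [e1, e2]
  have b1 : |∑ n ∈ Ico (a + H) (a + H + j), f n| ≤ j * K := by
    calc |∑ n ∈ Ico (a + H) (a + H + j), f n| ≤ ∑ n ∈ Ico (a + H) (a + H + j), |f n| :=
          Finset.abs_sum_le_sum_abs _ _
      _ ≤ ∑ _n ∈ Ico (a + H) (a + H + j), K := by
          refine Finset.sum_le_sum fun n hn => ?_
          rw [mem_Ico] at hn
          exact hK n (by omega) (by omega)
      _ = j * K := by
          rw [Finset.sum_const, Nat.card_Ico, nsmul_eq_mul]
          congr 2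
          omega
  have b2 : |∑ n ∈ Ico a (a + j), f n| ≤ j * K := by
    calc |∑ n ∈ Ico a (a + j), f n| ≤ ∑ n ∈ Ico a (a + j), |f n| :=
          Finset.abs_sum_le_sum_abs _ _
      _ ≤ ∑ _n ∈ Ico a (a + j), K := by
          refine Finset.sum_le_sum fun n hn => ?_
          rw [mem_Ico] at hn
          exact hK n (by omega) (by omega)
      _ = j * K := by
          rw [Finset.sum_const, Nat.card_Ico, nsmul_eq_mul]
          congr 2
          omega
  rw [abs_le] at b1 b2 ⊢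
  constructor <;> linarith

/-- the number of bad blocks from the mean square over the windows -/
private theorem Wd_count (G : ℕ → ℝ) (hG : ∀ x, 0 ≤ G x) (bad : Finset ℕ) (H δ K1 K2 : ℕ) {g : ℝ}
    (hδ : δ < H) (hi : ∀ i ∈ bad, 1 ≤ i * H ∧ K1 ≤ i * H - 1 ∧ i * H - 1 + δ ≤ K2)
    (hb : ∀ i ∈ bad, ∀ j ≤ δ, g ≤ G (i * H - 1 + j)) :
    bad.card * ((δ + 1 : ℕ) * g) ≤ ∑ x ∈ Icc K1 K2, G x := by
  classical
  have hinj : Set.InjOn (fun t : ℕ × ℕ => t.1 * H - 1 + t.2)
      ((bad ×ˢ range (δ + 1) : Finset (ℕ × ℕ)) : Set (ℕ × ℕ)) := by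
    intro s hs t ht hst
    rw [Finset.mem_coe, Finset.mem_product, Finset.mem_range] at hs ht
    have hst' : s.1 * H - 1 + s.2 = t.1 * H - 1 + t.2 := hst
    have h1 := (hi s.1 hs.1).1
    have h2 := (hi t.1 ht.1).1
    have h3 : s.1 * H + s.2 = t.1 * H + t.2 := by omega
    have h4 : s.2 < H := by omega
    have h5 : t.2 < H := by omega
    have h6 : s.1 = t.1 := by
      have e1 : (s.1 * H + s.2) / H = s.1 := by
        rw [mul_comm, Nat.mul_add_div (by omega), Nat.div_eq_of_lt h4, add_zero]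
      have e2 : (t.1 * H + t.2) / H = t.1 := by
        rw [mul_comm, Nat.mul_add_div (by omega), Nat.div_eq_of_lt h5, add_zero]
      rw [← e1, h3, e2]
    have h7 : s.2 = t.2 := by
      rw [h6] at h3
      omega
    exact Prod.ext h6 h7
  have hsub : (bad ×ˢ range (δ + 1)).image (fun t : ℕ × ℕ => t.1 * H - 1 + t.2) ⊆
      Icc K1 K2 := by
    intro x hx
    rw [Finset.mem_image] at hx
    obtain ⟨t, ht, rfl⟩ := hx
    rw [Finset.mem_product, Finset.mem_range] at ht
    obtain ⟨_, h2, h3⟩ := hi t.1 ht.1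
    rw [mem_Icc]
    omega
  calc (bad.card : ℝ) * ((δ + 1 : ℕ) * g) = ∑ _t ∈ bad ×ˢ range (δ + 1), g := by
        rw [Finset.sum_const, Finset.card_product, Finset.card_range, nsmul_eq_mul]
        push_cast
        ring
    _ ≤ ∑ t ∈ bad ×ˢ range (δ + 1), G (t.1 * H - 1 + t.2) := by
        refine Finset.sum_le_sum fun t ht => ?_
        rw [Finset.mem_product, Finset.mem_range] at ht
        exact hb t.1 ht.1 t.2 (by omega)
    _ = ∑ x ∈ (bad ×ˢ range (δ + 1)).image (fun t : ℕ × ℕ => t.1 * H - 1 + t.2), G x := by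
        rw [Finset.sum_image hinj]
    _ ≤ ∑ x ∈ Icc K1 K2, G x :=
        Finset.sum_le_sum_of_subset_of_nonneg hsub fun x _ _ => hG x

/-- the representative of `m` in `[1, r]` -/
private def Wd_kap (r m : ℕ) : ℕ := if m % r = 0 then r else m % r

private theorem Wd_kap_mem {r : ℕ} (hr : 1 ≤ r) (m : ℕ) : Wd_kap r m ∈ Icc 1 r := by
  unfold Wd_kap
  have := Nat.mod_lt m (by omega : 0 < r)
  rw [mem_Icc]
  split_ifs <;> omega

private theorem Wd_kap_eq {r : ℕ} {m c : ℕ} (hc : c ∈ Icc 1 r) :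
    Wd_kap r m = c ↔ m % r = c % r := by
  rw [mem_Icc] at hc
  unfold Wd_kap
  rcases Nat.lt_or_ge c r with h | h
  · rw [Nat.mod_eq_of_lt h]
    split_ifs with h1
    · omega
    · rfl
  · have h2 : c = r := by omega
    rw [h2, Nat.mod_self]
    have := Nat.mod_lt m (by omega : 0 < r)
    split_ifs with h1
    · simp [h1]
    · constructor
      · intro h3
        omega
      · intro h3
        exact absurd h3 h1

private theorem Wd_ee_int (t : ℝ) (k : ℤ) : ee (t + k) = ee t := by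
  unfold Pool.Agent.H91.PK.ee
  have e : 2 * Real.pi * ((t + k : ℝ) : ℂ) * Complex.I =
      2 * Real.pi * (t : ℂ) * Complex.I + k * (2 * Real.pi * Complex.I) := by
    push_cast
    ring
  rw [e, Complex.exp_add, Complex.exp_int_mul_two_pi_mul_I, mul_one]

private theorem Wd_ee_norm (t : ℝ) : ‖ee t‖ = 1 := by
  unfold Pool.Agent.H91.PK.ee
  have e : 2 * Real.pi * (t : ℂ) * Complex.I = ((2 * Real.pi * t : ℝ) : ℂ) * Complex.I := by
    push_cast
    ring
  rw [e, Complex.norm_exp_ofReal_mul_I]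

private theorem Wd_ee_neg (t : ℝ) : ee (-t) = (starRingEnd ℂ) (ee t) := by
  unfold Pool.Agent.H91.PK.ee
  rw [← Complex.exp_conj]
  congr 1
  simp only [map_mul, Complex.conj_ofReal, Complex.conj_I, map_ofNat]
  push_cast
  ring

private theorem Wd_ee_mod {r m c : ℕ} (a : ℕ) (hr : 1 ≤ r) (h : m % r = c % r) :
    ee (-((a : ℝ) * m / r)) = ee (-((a : ℝ) * c / r)) := by
  have hr0 : (r : ℝ) ≠ 0 := by exact_mod_cast (by omega : r ≠ 0)
  have h1 : (r : ℤ) ∣ (m : ℤ) - c := by
    have : c ≡ m [MOD r] := h.symm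
    exact (Nat.modEq_iff_dvd.mp this)
  obtain ⟨k, hk⟩ := h1
  have h2 : (m : ℝ) = c + r * k := by
    have : ((m : ℤ) : ℝ) = ((c + r * k : ℤ) : ℝ) := by
      congr 1
      linarith
    push_cast at this
    exact this
  have h3 : -((a : ℝ) * m / r) = -((a : ℝ) * c / r) + ((-(a * k) : ℤ) : ℝ) := by
    rw [h2]
    push_cast
    field_simp
    ring
  rw [h3, Wd_ee_int]

/-- the Ramanujan sum -/
private theorem Wd_ram {a r : ℕ} (hr : 1 ≤ r) (har : Nat.Coprime a r) :
    ∑ c ∈ (Icc 1 r).filter (fun c => Nat.Coprime c r), ee (-((a : ℝ) * c / r)) =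
      ((ArithmeticFunction.moebius r : ℝ) : ℂ) := by
  have h1 := Pool.Agent.H91.EHA.ramS_eq r a hr
  have h2 : ramS r a = (ArithmeticFunction.moebius r : ℝ) := by
    unfold Pool.Agent.H91.EHA.ramS
    rw [Nat.Coprime.gcd_eq_one har.symm]
    simp
  rw [h2] at h1
  have h3 := congrArg (starRingEnd ℂ) h1
  rw [Complex.conj_ofReal, map_sum] at h3
  rw [h3]
  refine Finset.sum_congr rfl fun c _ => ?_
  rw [Wd_ee_neg]

/-- the twist of a finite set, from the classes -/
private theorem Wd_twist {S : Finset ℕ} {Y : ℕ → ℝ} {h : ℝ} {a r : ℕ} {ε : ℝ} (hr : 1 ≤ r) (har : Nat.Coprime a r)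
    (hh : ∀ c ∈ Icc 1 r, |(∑ n ∈ S.filter (fun n => n % r = c % r), Y n)
          - (if Nat.Coprime c r then h / r.totient else 0)| ≤ ε) :
    ‖∑ m ∈ S, ((Y m : ℝ) : ℂ) * ee (-((a : ℝ) * m / r))
      - (((ArithmeticFunction.moebius r : ℝ) / (r.totient : ℝ) * h : ℝ) : ℂ)‖ ≤ r * ε := by
  have h1 : ∑ m ∈ S, ((Y m : ℝ) : ℂ) * ee (-((a : ℝ) * m / r)) =
      ∑ c ∈ Icc 1 r, ee (-((a : ℝ) * c / r)) *
        ((∑ n ∈ S.filter (fun n => n % r = c % r), Y n : ℝ) : ℂ) := by
    rw [← Finset.sum_fiberwise_of_maps_to (s := S) (t := Icc 1 r) (g := Wd_kap r)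
      (fun m _ => Wd_kap_mem hr m)]
    refine Finset.sum_congr rfl fun c hc => ?_
    have e1 : S.filter (fun m => Wd_kap r m = c) =
        S.filter (fun n => n % r = c % r) := by
      ext m
      simp only [Finset.mem_filter, Wd_kap_eq hc]
    rw [e1]
    push_cast
    rw [Finset.mul_sum]
    refine Finset.sum_congr rfl fun m hm => ?_
    rw [Wd_ee_mod a hr (Finset.mem_filter.mp hm).2]
    ring
  have h2 : (((ArithmeticFunction.moebius r : ℝ) / (r.totient : ℝ) * h : ℝ) : ℂ) =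
      ∑ c ∈ Icc 1 r, ee (-((a : ℝ) * c / r)) *
        ((if Nat.Coprime c r then h / r.totient else 0 : ℝ) : ℂ) := by
    have e1 : ∑ c ∈ Icc 1 r, ee (-((a : ℝ) * c / r)) *
        ((if Nat.Coprime c r then h / r.totient else 0 : ℝ) : ℂ) =
        ∑ c ∈ (Icc 1 r).filter (fun c => Nat.Coprime c r), ee (-((a : ℝ) * c / r)) *
          ((h / r.totient : ℝ) : ℂ) := by
      rw [Finset.sum_filter]
      refine Finset.sum_congr rfl fun c _ => ?_
      split_ifs <;> simp
    rw [e1, ← Finset.sum_mul, Wd_ram hr har]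
    push_cast
    ring
  rw [h1, h2, ← Finset.sum_sub_distrib]
  calc ‖∑ c ∈ Icc 1 r, (ee (-((a : ℝ) * c / r)) *
        ((∑ n ∈ S.filter (fun n => n % r = c % r), Y n : ℝ) : ℂ) -
        ee (-((a : ℝ) * c / r)) *
        ((if Nat.Coprime c r then h / r.totient else 0 : ℝ) : ℂ))‖
      ≤ ∑ _c ∈ Icc 1 r, ε := by
        refine norm_sum_le_of_le _ fun c hc => ?_
        rw [← mul_sub, norm_mul, Wd_ee_norm, one_mul, ← Complex.ofReal_sub, Complex.norm_real,
          Real.norm_eq_abs]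
        exact hh c hc
    _ = r * ε := by
        rw [Finset.sum_const, Nat.card_Icc, nsmul_eq_mul]
        congr 2


/-- the left end of the reflected block -/
private def Wd_x (H n : ℕ) : ℕ := 2 * n - (n / H + 1) * H

private theorem Wd_x_bounds {H n : ℕ} (hH : 1 ≤ H) (hn : H ≤ n) :
    n < Wd_x H n + H + 1 ∧ Wd_x H n < n ∧ Wd_x H n + (n / H + 1) * H = 2 * n := by
  unfold Wd_x
  have h1 : n / H * H ≤ n := Nat.div_mul_le_self n H
  have h2 : n < n / H * H + H := Nat.lt_div_mul_add (by omega)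
  have h3 : (n / H + 1) * H = n / H * H + H := by ring
  omega

/-- reflection of the block -/
private theorem Wd_reindex {H n : ℕ} (hH : 1 ≤ H) (hn : H ≤ n) (f : ℕ → ℂ) :
    ∑ u ∈ blk H (n / H), f (2 * n - u) = ∑ v ∈ Ioc (Wd_x H n) (Wd_x H n + H), f v := by
  obtain ⟨_, _, h3⟩ := Wd_x_bounds hH hn
  have h4 : (n / H + 1) * H = n / H * H + H := by ring
  have h1 : n / H * H ≤ n := Nat.div_mul_le_self n H
  refine Finset.sum_nbij' (fun u => 2 * n - u) (fun v => 2 * n - v) ?_ ?_ ?_ ?_ ?_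
  · intro u hu
    unfold Pool.Agent.H43.MP.blk at hu
    rw [mem_Ico] at hu
    rw [mem_Ioc]
    omega
  · intro v hv
    rw [mem_Ioc] at hv
    unfold Pool.Agent.H43.MP.blk
    rw [mem_Ico]
    omega
  · intro u hu
    unfold Pool.Agent.H43.MP.blk at hu
    rw [mem_Ico] at hu
    show 2 * n - (2 * n - u) = u
    omega
  · intro v hv
    rw [mem_Ioc] at hv
    show 2 * n - (2 * n - v) = v
    omega
  · intro u _
    rfl

/-- every left end is taken at most twice -/
private theorem Wd_fiber {H : ℕ} (hH : 1 ≤ H) (s : Finset ℕ) (hs : ∀ n ∈ s, H ≤ n) (x : ℕ) :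
    (s.filter (fun n => Wd_x H n = x)).card ≤ 2 := by
  have hsub : s.filter (fun n => Wd_x H n = x) ⊆
      {(x + (x / H + 1) * H) / 2, (x + (x / H + 2) * H) / 2} := by
    intro n hn
    rw [Finset.mem_filter] at hn
    obtain ⟨hn1, hn2⟩ := hn
    have hHn := hs n hn1
    obtain ⟨_, _, h3⟩ := Wd_x_bounds hH hHn
    rw [hn2] at h3
    have h1 : n / H * H ≤ n := Nat.div_mul_le_self n H
    have h2 : n < n / H * H + H := Nat.lt_div_mul_add (by omega)
    have h4 : (n / H + 1) * H = n / H * H + H := by ring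
    have h5 : 1 ≤ n / H := (Nat.one_le_div_iff (by omega)).mpr hHn
    have h6 : n / H - 1 ≤ x / H := by
      rw [Nat.le_div_iff_mul_le (by omega), Nat.sub_mul]
      omega
    have h7 : x / H < n / H + 1 := by
      rw [Nat.div_lt_iff_lt_mul (by omega)]
      omega
    have h8 : x / H + 1 = n / H + 1 ∨ x / H + 2 = n / H + 1 := by omega
    rw [Finset.mem_insert, Finset.mem_singleton]
    rcases h8 with h8 | h8
    · left
      rw [h8]
      omega
    · right
      rw [h8]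
      omega
  exact (Finset.card_le_card hsub).trans Finset.card_le_two

/-- the number of the `n` with a bad reflected block, from the mean square -/
private theorem Wd_rcount (G : ℕ → ℝ) (hG : ∀ x, 0 ≤ G x) (bad : Finset ℕ) (H K1 K2 : ℕ) {g : ℝ}
    (hH : 1 ≤ H) (hg : 0 ≤ g) (hi : ∀ n ∈ bad, H ≤ n ∧ K1 ≤ Wd_x H n ∧ Wd_x H n ≤ K2)
    (hb : ∀ n ∈ bad, g ≤ G (Wd_x H n)) :
    bad.card * g ≤ 2 * ∑ x ∈ Icc K1 K2, G x := by
  classical
  have h1 : bad.card ≤ 2 * (bad.image (Wd_x H)).card :=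
    Finset.card_le_mul_card_image bad 2 fun x _ => Wd_fiber hH bad (fun n hn => (hi n hn).1) x
  have h2 : ((bad.image (Wd_x H)).card : ℝ) * g ≤ ∑ x ∈ Icc K1 K2, G x := by
    calc ((bad.image (Wd_x H)).card : ℝ) * g = ∑ _x ∈ bad.image (Wd_x H), g := by
          rw [Finset.sum_const, nsmul_eq_mul]
      _ ≤ ∑ x ∈ bad.image (Wd_x H), G x := by
          refine Finset.sum_le_sum fun x hx => ?_
          obtain ⟨n, hn, rfl⟩ := Finset.mem_image.mp hx
          exact hb n hn
      _ ≤ ∑ x ∈ Icc K1 K2, G x := by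
          refine Finset.sum_le_sum_of_subset_of_nonneg ?_ fun x _ _ => hG x
          intro x hx
          obtain ⟨n, hn, rfl⟩ := Finset.mem_image.mp hx
          obtain ⟨_, h3, h4⟩ := hi n hn
          rw [mem_Icc]
          omega
  have h3 : (bad.card : ℝ) ≤ 2 * ((bad.image (Wd_x H)).card : ℝ) := by exact_mod_cast h1
  calc (bad.card : ℝ) * g ≤ 2 * ((bad.image (Wd_x H)).card : ℝ) * g :=
        mul_le_mul_of_nonneg_right h3 hg
    _ = 2 * (((bad.image (Wd_x H)).card : ℝ) * g) := by ring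
    _ ≤ _ := by linarith


/-- the blocks with a bad class -/
private theorem Wd_cls {N H A A' A1 B C d c : ℕ} {Y η : ℕ → ℝ} (hL : 400 ≤ Real.log N) (hH : 1 ≤ H)
    (hHN : 16 * (H + 20) ≤ N) (hY : ∀ n : ℕ, 1 ≤ n → n ≤ 16 * N → |Y n| ≤ Real.log N ^ C)
    (hlip : ∀ x x' : ℕ, x ≤ x' + 2 * H → x' ≤ x + 2 * H → N ≤ 8 * x → x ≤ 8 * N → N ≤ 8 * x' → x' ≤ 8 * N →
      |η x - η x'| ≤ 1 / (8 * Real.log N ^ A'))
    (hA1 : A + 3 * A' + C + 1 ≤ A1) (hd1 : 1 ≤ d)
    (hW : ∑ x ∈ Icc (N / 8) (8 * N), ((∑ n ∈ (Ioc x (x + H)).filter (fun n => n % d = c % d), Y n)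
        - (if Nat.Coprime c d then H * η x / d.totient else 0)) ^ 2 ≤ N * (H : ℝ) ^ 2 / Real.log N ^ A1) :
    (((idx N H).filter (fun i => (H : ℝ) / Real.log N ^ A' <
        |(∑ n ∈ (blk H i).filter (fun n => n % d = c % d), Y n)
          - (if Nat.Coprime c d then H * η (i * H) / d.totient else 0)|)).card : ℝ)
      ≤ (N : ℝ) / H / Real.log N ^ A := by
  set L := Real.log N with hLdef
  have hL0 : 0 < L := by linarith
  have hL1 : 1 ≤ L := by linarith
  have hNpos : 0 < N := by omega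
  have hNR : (0 : ℝ) < N := by exact_mod_cast hNpos
  have hHR : (0 : ℝ) < H := by exact_mod_cast hH
  have hphi : (1 : ℝ) ≤ d.totient := by exact_mod_cast Nat.totient_pos.2 hd1
  set G : ℕ → ℝ := fun x => ((∑ n ∈ (Ioc x (x + H)).filter (fun n => n % d = c % d), Y n)
        - (if Nat.Coprime c d then H * η x / d.totient else 0)) ^ 2 with hG
  set δ : ℕ := ⌊(H : ℝ) / (16 * L ^ (A' + C))⌋₊ with hδ
  have hδ1 : (δ : ℝ) ≤ (H : ℝ) / (16 * L ^ (A' + C)) := Nat.floor_le (by positivity)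
  have hδ2 : (H : ℝ) / (16 * L ^ (A' + C)) ≤ ((δ + 1 : ℕ) : ℝ) := by
    push_cast
    exact (Nat.lt_floor_add_one _).le
  have hδH : δ < H := by
    have h3 : (H : ℝ) / (16 * L ^ (A' + C)) < H := by
      rw [div_lt_iff₀ (by positivity)]
      have : 1 ≤ L ^ (A' + C) := one_le_pow₀ hL1
      nlinarith
    have h4 : (δ : ℝ) < H := lt_of_le_of_lt hδ1 h3
    exact_mod_cast h4
  set bad : Finset ℕ := (idx N H).filter (fun i => (H : ℝ) / L ^ A' <
        |(∑ n ∈ (blk H i).filter (fun n => n % d = c % d), Y n)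
          - (if Nat.Coprime c d then H * η (i * H) / d.totient else 0)|) with hbad
  have hrange : ∀ i ∈ idx N H, 1 ≤ i * H ∧ N / 8 ≤ i * H - 1 ∧ i * H - 1 + δ ≤ 8 * N ∧
      i * H + H + δ ≤ 16 * N ∧ N ≤ 8 * (i * H - 1) ∧ i * H ≤ 8 * N := by
    intro i hi
    unfold Pool.Agent.H43.MP.idx at hi
    rw [mem_Icc] at hi
    have h3 : i * H ≤ 3 * N := by
      have := Nat.mul_le_mul_right H hi.2
      exact this.trans (Nat.div_mul_le_self _ _)
    have h4 : N < 2 * (i * H) + 2 * H := by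
      have h5 : N / (2 * H) * (2 * H) ≤ i * (2 * H) := Nat.mul_le_mul_right _ hi.1
      have h6 : N < N / (2 * H) * (2 * H) + 2 * H := by
        have := Nat.lt_div_mul_add (a := N) (b := 2 * H) (by omega)
        exact this
      have h7 : i * (2 * H) = 2 * (i * H) := by ring
      omega
    refine ⟨?_, ?_, ?_, ?_, ?_, ?_⟩ <;> omega
  have hcount := Wd_count G (fun x => sq_nonneg _) bad H δ (N / 8) (8 * N)
    (g := ((H : ℝ) / (2 * L ^ A')) ^ 2) hδH
    (fun i hi => by
      have := hrange i (Finset.mem_filter.mp hi).1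
      exact ⟨this.1, this.2.1, this.2.2.1⟩)
    (fun i hi j hj => by
      obtain ⟨hi1, hi2⟩ := Finset.mem_filter.mp hi
      obtain ⟨r1, r2, r3, r4, r5, r6⟩ := hrange i hi1
      have hs := Wd_shift (fun n => if n % d = c % d then Y n else 0)
        (K := L ^ C) (i * H) j H (16 * N) r1 (by omega)
        (fun n hn0 hn => by
          split_ifs
          · exact hY n hn0 hn
          · rw [abs_zero]; positivity)
      rw [← Finset.sum_filter, ← Finset.sum_filter] at hs
      have hblk : blk H i = Ico (i * H) (i * H + H) := by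
        unfold Pool.Agent.H43.MP.blk
        congr 1
        ring
      rw [hblk] at hi2
      set T := ∑ n ∈ (Ioc (i * H - 1 + j) (i * H - 1 + j + H)).filter (fun n => n % d = c % d),
        Y n with hT
      set S := ∑ n ∈ (Ico (i * H) (i * H + H)).filter (fun n => n % d = c % d), Y n
      set M1 : ℝ := (if Nat.Coprime c d then H * η (i * H) / d.totient else 0) with hM1
      set M2 : ℝ := (if Nat.Coprime c d then H * η (i * H - 1 + j) / d.totient else 0) with hM2
      have hj' : (j : ℝ) ≤ (H : ℝ) / (16 * L ^ (A' + C)) :=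
        le_trans (by exact_mod_cast hj) hδ1
      have h3 : |T - S| ≤ (H : ℝ) / (8 * L ^ A') := by
        refine hs.trans ?_
        calc 2 * ((j : ℝ) * L ^ C) ≤
            2 * (((H : ℝ) / (16 * L ^ (A' + C))) * L ^ C) := by
              have := mul_le_mul_of_nonneg_right hj' (show 0 ≤ L ^ C by positivity)
              linarith
          _ = (H : ℝ) / (8 * L ^ A') := by
              rw [pow_add]
              field_simp
              norm_num
      have h3' : |M1 - M2| ≤ (H : ℝ) / (8 * L ^ A') := by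
        rw [hM1, hM2]
        split_ifs
        · have e1 : (H : ℝ) * η (i * H) / d.totient - H * η (i * H - 1 + j) / d.totient =
              (H / d.totient) * (η (i * H) - η (i * H - 1 + j)) := by ring
          rw [e1, abs_mul, abs_of_nonneg (by positivity)]
          have h5 := hlip (i * H) (i * H - 1 + j) (by omega) (by omega) (by omega) (by omega) (by omega) (by omega)
          calc (H : ℝ) / d.totient * |η (i * H) - η (i * H - 1 + j)| ≤ H * (1 / (8 * L ^ A')) :=
                mul_le_mul (div_le_self hHR.le hphi) h5 (abs_nonneg _) hHR.le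
            _ = (H : ℝ) / (8 * L ^ A') := by ring
        · rw [sub_self, abs_zero]
          positivity
      have h4 : |S - M1| ≤ |T - M2| + |T - S| + |M1 - M2| := by
        have e : S - M1 = (T - M2) - (T - S) - (M1 - M2) := by ring
        rw [e]
        exact (abs_sub _ _).trans (add_le_add_left (abs_sub _ _) _)
      have h5 : (H : ℝ) / (2 * L ^ A') ≤ |T - M2| := by
        have e1 : (H : ℝ) / (8 * L ^ A') = (H : ℝ) / L ^ A' / 8 := by
          rw [mul_comm 8, ← div_div]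
        have e2 : (H : ℝ) / (2 * L ^ A') = (H : ℝ) / L ^ A' / 2 := by
          rw [mul_comm 2, ← div_div]
        rw [e1] at h3 h3'
        rw [e2]
        have h6 : 0 < (H : ℝ) / L ^ A' := by positivity
        linarith
      have h6 := pow_le_pow_left₀ (by positivity) h5 2
      rw [sq_abs] at h6
      exact h6)
  have hc2 := hcount.trans hW
  -- arithmetic
  set E : ℝ := (bad.card : ℝ) with hE
  have hE0 : 0 ≤ E := Nat.cast_nonneg _
  have h1 : E * (H / (16 * L ^ (A' + C)) * (H / (2 * L ^ A')) ^ 2) ≤ N * (H : ℝ) ^ 2 / L ^ A1 := by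
    refine le_trans (mul_le_mul_of_nonneg_left ?_ hE0) hc2
    exact mul_le_mul_of_nonneg_right hδ2 (by positivity)
  have h2 : (N : ℝ) * (H : ℝ) ^ 2 / L ^ A1 ≤ N * (H : ℝ) ^ 2 / L ^ (A + 3 * A' + C + 1) :=
    div_le_div_of_nonneg_left (by positivity) (by positivity) (pow_le_pow_right₀ hL1 hA1)
  have e1 : E * (H / (16 * L ^ (A' + C)) * (H / (2 * L ^ A')) ^ 2) =
      (E * H) * (H ^ 2 / (64 * L ^ (3 * A' + C))) := by
    have : L ^ (3 * A' + C) = L ^ (A' + C) * (L ^ A') ^ 2 := by ring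
    rw [this]
    field_simp
    ring
  have e2 : (N : ℝ) * (H : ℝ) ^ 2 / L ^ (A + 3 * A' + C + 1) =
      (N / L ^ A * (64 / L)) * (H ^ 2 / (64 * L ^ (3 * A' + C))) := by
    have : L ^ (A + 3 * A' + C + 1) = L ^ A * L * L ^ (3 * A' + C) := by ring
    rw [this]
    field_simp
  rw [e1] at h1
  rw [e2] at h2
  have h3 : E * H ≤ N / L ^ A * (64 / L) := le_of_mul_le_mul_right (h1.trans h2) (by positivity)
  have h4 : 64 / L ≤ 1 := by
    rw [div_le_one hL0]
    linarith
  have h5 : E * H ≤ N / L ^ A := h3.trans (mul_le_of_le_one_right (by positivity) h4)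
  rw [div_div, mul_comm (H : ℝ), ← div_div, le_div_iff₀ hHR]
  exact h5

/-- the reflected blocks with a bad class -/
private theorem Wd_rcls {N H A A' A1 d c : ℕ} {Y η : ℕ → ℝ} (hL : 400 ≤ Real.log N) (hH : 1 ≤ H)
    (hHN : 16 * (H + 20) ≤ N)
    (hlip : ∀ x x' : ℕ, x ≤ x' + 2 * H → x' ≤ x + 2 * H → N ≤ 8 * x → x ≤ 8 * N → N ≤ 8 * x' → x' ≤ 8 * N →
      |η x - η x'| ≤ 1 / (8 * Real.log N ^ A'))
    (hA1 : A + 2 * A' + 1 ≤ A1) (hd1 : 1 ≤ d)
    (hW : ∑ x ∈ Icc (N / 8) (8 * N), ((∑ n ∈ (Ioc x (x + H)).filter (fun n => n % d = c % d), Y n)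
        - (if Nat.Coprime c d then H * η x / d.totient else 0)) ^ 2 ≤ N * (H : ℝ) ^ 2 / Real.log N ^ A1) :
    (((Ioc N (2 * N)).filter (fun n => (H : ℝ) / Real.log N ^ A' <
        |(∑ v ∈ (Ioc (Wd_x H n) (Wd_x H n + H)).filter (fun v => v % d = c % d), Y v)
          - (if Nat.Coprime c d then H * η (n / H * H) / d.totient else 0)|)).card : ℝ)
      ≤ (N : ℝ) / Real.log N ^ A := by
  set L := Real.log N with hLdef
  have hL0 : 0 < L := by linarith
  have hL1 : 1 ≤ L := by linarith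
  have hNpos : 0 < N := by omega
  have hNR : (0 : ℝ) < N := by exact_mod_cast hNpos
  have hHR : (0 : ℝ) < H := by exact_mod_cast hH
  have hphi : (1 : ℝ) ≤ d.totient := by exact_mod_cast Nat.totient_pos.2 hd1
  set G : ℕ → ℝ := fun x => ((∑ n ∈ (Ioc x (x + H)).filter (fun n => n % d = c % d), Y n)
        - (if Nat.Coprime c d then H * η x / d.totient else 0)) ^ 2 with hG
  set bad : Finset ℕ := (Ioc N (2 * N)).filter (fun n => (H : ℝ) / L ^ A' <
        |(∑ v ∈ (Ioc (Wd_x H n) (Wd_x H n + H)).filter (fun v => v % d = c % d), Y v)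
          - (if Nat.Coprime c d then H * η (n / H * H) / d.totient else 0)|) with hbad
  have hcount := Wd_rcount G (fun x => sq_nonneg _) bad H (N / 8) (8 * N)
    (g := ((H : ℝ) / (2 * L ^ A')) ^ 2) hH (by positivity)
    (fun n hn => by
      have hn1 := (Finset.mem_filter.mp hn).1
      rw [mem_Ioc] at hn1
      have hHn : H ≤ n := by omega
      obtain ⟨b1, b2, _⟩ := Wd_x_bounds hH hHn
      refine ⟨hHn, ?_, ?_⟩ <;> omega)
    (fun n hn => by
      obtain ⟨hn1, hn2⟩ := Finset.mem_filter.mp hn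
      rw [mem_Ioc] at hn1
      have hHn : H ≤ n := by omega
      obtain ⟨b1, b2, b3⟩ := Wd_x_bounds hH hHn
      have b4 : n / H * H ≤ n := Nat.div_mul_le_self n H
      have b5 : n < n / H * H + H := Nat.lt_div_mul_add (by omega)
      set T := ∑ v ∈ (Ioc (Wd_x H n) (Wd_x H n + H)).filter (fun v => v % d = c % d), Y v with hT
      set M1 : ℝ := (if Nat.Coprime c d then H * η (n / H * H) / d.totient else 0) with hM1
      set M2 : ℝ := (if Nat.Coprime c d then H * η (Wd_x H n) / d.totient else 0) with hM2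
      have h3' : |M1 - M2| ≤ (H : ℝ) / (8 * L ^ A') := by
        rw [hM1, hM2]
        split_ifs
        · have e1 : (H : ℝ) * η (n / H * H) / d.totient - H * η (Wd_x H n) / d.totient =
              (H / d.totient) * (η (n / H * H) - η (Wd_x H n)) := by ring
          rw [e1, abs_mul, abs_of_nonneg (by positivity)]
          have h5 := hlip (n / H * H) (Wd_x H n) (by omega) (by omega) (by omega) (by omega) (by omega) (by omega)
          calc (H : ℝ) / d.totient * |η (n / H * H) - η (Wd_x H n)| ≤ H * (1 / (8 * L ^ A')) :=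
                mul_le_mul (div_le_self hHR.le hphi) h5 (abs_nonneg _) hHR.le
            _ = (H : ℝ) / (8 * L ^ A') := by ring
        · rw [sub_self, abs_zero]
          positivity
      have h4 : |T - M1| ≤ |T - M2| + |M1 - M2| := by
        have e : T - M1 = (T - M2) - (M1 - M2) := by ring
        rw [e]
        exact abs_sub _ _
      have h5 : (H : ℝ) / (2 * L ^ A') ≤ |T - M2| := by
        have e1 : (H : ℝ) / (8 * L ^ A') = (H : ℝ) / L ^ A' / 8 := by
          rw [mul_comm 8, ← div_div]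
        have e2 : (H : ℝ) / (2 * L ^ A') = (H : ℝ) / L ^ A' / 2 := by
          rw [mul_comm 2, ← div_div]
        rw [e1] at h3'
        rw [e2]
        have h6 : 0 < (H : ℝ) / L ^ A' := by positivity
        linarith
      have h6 := pow_le_pow_left₀ (by positivity) h5 2
      rw [sq_abs] at h6
      exact h6)
  have hc2 : (bad.card : ℝ) * (H / (2 * L ^ A')) ^ 2 ≤ 2 * (N * (H : ℝ) ^ 2 / L ^ A1) := by linarith
  set E : ℝ := (bad.card : ℝ) with hE
  have hE0 : 0 ≤ E := Nat.cast_nonneg _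
  have h2 : (N : ℝ) * (H : ℝ) ^ 2 / L ^ A1 ≤ N * (H : ℝ) ^ 2 / L ^ (A + 2 * A' + 1) :=
    div_le_div_of_nonneg_left (by positivity) (by positivity) (pow_le_pow_right₀ hL1 hA1)
  have e2 : 2 * ((N : ℝ) * (H : ℝ) ^ 2 / L ^ (A + 2 * A' + 1)) =
      (N / L ^ A * (8 / L)) * (H / (2 * L ^ A')) ^ 2 := by
    have : L ^ (A + 2 * A' + 1) = L ^ A * L * (L ^ A') ^ 2 := by ring
    rw [this]
    field_simp
    norm_num
  have h3 : E * (H / (2 * L ^ A')) ^ 2 ≤ (N / L ^ A * (8 / L)) * (H / (2 * L ^ A')) ^ 2 := by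
    rw [← e2]
    linarith
  have h4 : E ≤ N / L ^ A * (8 / L) := le_of_mul_le_mul_right h3 (by positivity)
  have h5 : 8 / L ≤ 1 := by
    rw [div_le_one hL0]
    linarith
  exact h4.trans (mul_le_of_le_one_right (by positivity) h5)

private theorem Wd_union {B : ℕ} {L X : ℝ} (hL0 : 0 < L) (s : Finset ℕ)
    (bad : ℕ → ℕ → Finset ℕ) (A : ℕ) (hX : 0 ≤ X)
    (hsub : s ⊆ (Icc 1 ⌊L ^ B⌋₊ ×ˢ Icc 1 ⌊L ^ B⌋₊).biUnion (fun t => bad t.1 t.2))
    (hc1 : ∀ t ∈ Icc 1 ⌊L ^ B⌋₊ ×ˢ Icc 1 ⌊L ^ B⌋₊, ((bad t.1 t.2).card : ℝ) ≤ X / L ^ (A + 2 * B)) :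
    (s.card : ℝ) ≤ X / L ^ A := by
  set R : ℕ := ⌊L ^ B⌋₊ with hR
  have hRle : (R : ℝ) ≤ L ^ B := Nat.floor_le (by positivity)
  calc (s.card : ℝ) ≤
      (((Icc 1 R ×ˢ Icc 1 R).biUnion (fun t => bad t.1 t.2)).card : ℝ) := by
        exact_mod_cast Finset.card_le_card hsub
    _ ≤ ∑ t ∈ Icc 1 R ×ˢ Icc 1 R, ((bad t.1 t.2).card : ℝ) := by
        exact_mod_cast Finset.card_biUnion_le
    _ ≤ ∑ _t ∈ Icc 1 R ×ˢ Icc 1 R, X / L ^ (A + 2 * B) :=
        Finset.sum_le_sum hc1
    _ = (R : ℝ) * R * (X / L ^ (A + 2 * B)) := by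
        rw [Finset.sum_const, Finset.card_product, Nat.card_Icc, nsmul_eq_mul]
        push_cast
        simp
    _ ≤ L ^ B * L ^ B * (X / L ^ (A + 2 * B)) := by
        refine mul_le_mul_of_nonneg_right ?_ (by positivity)
        exact mul_le_mul hRle hRle (Nat.cast_nonneg _) (by positivity)
    _ = X / L ^ A := by
        rw [pow_add, two_mul, pow_add]
        field_simp

/-- blocks -/
theorem badQ_wd {N H A A1 B C : ℕ} {Y η : ℕ → ℝ} (hL : 400 ≤ Real.log N) (hH : 1 ≤ H)
    (hHN : 16 * (H + 20) ≤ N) (hY : ∀ n : ℕ, 1 ≤ n → n ≤ 16 * N → |Y n| ≤ Real.log N ^ C)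
    (hlip : ∀ x x' : ℕ, x ≤ x' + 2 * H → x' ≤ x + 2 * H → N ≤ 8 * x → x ≤ 8 * N → N ≤ 8 * x' → x' ≤ 8 * N →
      |η x - η x'| ≤ 1 / (8 * Real.log N ^ (A + B)))
    (hA1 : 4 * A + 5 * B + C + 1 ≤ A1)
    (hW : ∀ d c : ℕ, 1 ≤ d → (d : ℝ) ≤ Real.log N ^ B →
      ∑ x ∈ Icc (N / 8) (8 * N), ((∑ n ∈ (Ioc x (x + H)).filter (fun n => n % d = c % d), Y n)
        - (if Nat.Coprime c d then H * η x / d.totient else 0)) ^ 2 ≤ N * (H : ℝ) ^ 2 / Real.log N ^ A1) :
    ((badQ N H A B Y (fun i => η (i * H))).card : ℝ) ≤ (N : ℝ) / H / Real.log N ^ A := by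
  classical
  have hL0 : 0 < Real.log N := by linarith
  have hHR : (0 : ℝ) < H := by exact_mod_cast hH
  refine Wd_union (B := B) hL0 _ (fun d c => (idx N H).filter (fun i =>
    (H : ℝ) / Real.log N ^ (A + B) <
        |(∑ n ∈ (blk H i).filter (fun n => n % d = c % d), Y n)
          - (if Nat.Coprime c d then H * η (i * H) / d.totient else 0)|)) A (by positivity) ?_ ?_
  · intro i hi
    unfold badQ at hi
    rw [Finset.mem_filter] at hi
    obtain ⟨hi1, r, a, hr1, hrB, har, hlt⟩ := hi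
    have hrR : r ≤ ⌊Real.log N ^ B⌋₊ := Nat.le_floor hrB
    by_contra hcon
    apply absurd hlt
    rw [not_lt]
    have h3 := Wd_twist (S := blk H i) (Y := Y) (h := H * η (i * H)) (ε := (H : ℝ) / Real.log N ^ (A + B)) hr1 har
      (fun c hc => by
        by_contra hc2
        rw [not_le] at hc2
        apply hcon
        rw [Finset.mem_biUnion]
        rw [mem_Icc] at hc
        refine ⟨(r, c), ?_, ?_⟩
        · rw [Finset.mem_product, mem_Icc, mem_Icc]
          exact ⟨⟨hr1, hrR⟩, hc.1, hc.2.trans hrR⟩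
        · exact Finset.mem_filter.mpr ⟨hi1, hc2⟩)
    refine h3.trans ?_
    calc (r : ℝ) * ((H : ℝ) / Real.log N ^ (A + B)) ≤
        Real.log N ^ B * ((H : ℝ) / Real.log N ^ (A + B)) :=
          mul_le_mul_of_nonneg_right hrB (by positivity)
      _ = (H : ℝ) / Real.log N ^ A := by
          rw [pow_add]
          field_simp
  · intro t ht
    rw [Finset.mem_product, mem_Icc, mem_Icc] at ht
    have hRle : ((⌊Real.log N ^ B⌋₊ : ℕ) : ℝ) ≤ Real.log N ^ B := Nat.floor_le (by positivity)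
    have h3 : (t.1 : ℝ) ≤ Real.log N ^ B := le_trans (by exact_mod_cast ht.1.2) hRle
    have h4 := Wd_cls (A := A + 2 * B) (A' := A + B) (B := B) (C := C) (c := t.2) hL hH hHN hY hlip (by omega) ht.1.1
      (hW t.1 t.2 ht.1.1 h3)
    refine le_trans (le_of_eq ?_) h4
    congr 2

/-- reflected blocks -/
theorem badQN_wd {N H A A1 B : ℕ} {Y η : ℕ → ℝ} (hL : 400 ≤ Real.log N) (hH : 1 ≤ H)
    (hHN : 16 * (H + 20) ≤ N)
    (hlip : ∀ x x' : ℕ, x ≤ x' + 2 * H → x' ≤ x + 2 * H → N ≤ 8 * x → x ≤ 8 * N → N ≤ 8 * x' → x' ≤ 8 * N →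
      |η x - η x'| ≤ 1 / (8 * Real.log N ^ (A + B)))
    (hA1 : 4 * A + 5 * B + 1 ≤ A1)
    (hW : ∀ d c : ℕ, 1 ≤ d → (d : ℝ) ≤ Real.log N ^ B →
      ∑ x ∈ Icc (N / 8) (8 * N), ((∑ n ∈ (Ioc x (x + H)).filter (fun n => n % d = c % d), Y n)
        - (if Nat.Coprime c d then H * η x / d.totient else 0)) ^ 2 ≤ N * (H : ℝ) ^ 2 / Real.log N ^ A1) :
    ((badQN N H A B Y (fun i => η (i * H))).card : ℝ) ≤ (N : ℝ) / Real.log N ^ A := by
  classical
  have hL0 : 0 < Real.log N := by linarith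
  have hHR : (0 : ℝ) < H := by exact_mod_cast hH
  refine Wd_union (B := B) hL0 _ (fun d c => (Ioc N (2 * N)).filter (fun n =>
    (H : ℝ) / Real.log N ^ (A + B) <
        |(∑ v ∈ (Ioc (Wd_x H n) (Wd_x H n + H)).filter (fun v => v % d = c % d), Y v)
          - (if Nat.Coprime c d then H * η (n / H * H) / d.totient else 0)|)) A (by positivity) ?_ ?_
  · intro n hn
    unfold badQN at hn
    rw [Finset.mem_filter] at hn
    obtain ⟨hn1, r, a, hr1, hrB, har, hlt⟩ := hn
    have hrR : r ≤ ⌊Real.log N ^ B⌋₊ := Nat.le_floor hrB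
    have hHn : H ≤ n := by
      rw [mem_Ioc] at hn1
      omega
    by_contra hcon
    apply absurd hlt
    rw [not_lt]
    have h3 := Wd_twist (S := Ioc (Wd_x H n) (Wd_x H n + H)) (Y := Y) (h := H * η (n / H * H))
      (ε := (H : ℝ) / Real.log N ^ (A + B)) hr1 har
      (fun c hc => by
        by_contra hc2
        rw [not_le] at hc2
        apply hcon
        rw [Finset.mem_biUnion]
        rw [mem_Icc] at hc
        refine ⟨(r, c), ?_, ?_⟩
        · rw [Finset.mem_product, mem_Icc, mem_Icc]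
          exact ⟨⟨hr1, hrR⟩, hc.1, hc.2.trans hrR⟩
        · exact Finset.mem_filter.mpr ⟨hn1, hc2⟩)
    have h4 := Wd_reindex hH hHn (fun v => ((Y v : ℝ) : ℂ) * ee (-((a : ℝ) * (v : ℝ) / r)))
    rw [← h4] at h3
    refine h3.trans ?_
    calc (r : ℝ) * ((H : ℝ) / Real.log N ^ (A + B)) ≤
        Real.log N ^ B * ((H : ℝ) / Real.log N ^ (A + B)) :=
          mul_le_mul_of_nonneg_right hrB (by positivity)
      _ = (H : ℝ) / Real.log N ^ A := by
          rw [pow_add]
          field_simp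
  · intro t ht
    rw [Finset.mem_product, mem_Icc, mem_Icc] at ht
    have hRle : ((⌊Real.log N ^ B⌋₊ : ℕ) : ℝ) ≤ Real.log N ^ B := Nat.floor_le (by positivity)
    have h3 : (t.1 : ℝ) ≤ Real.log N ^ B := le_trans (by exact_mod_cast ht.1.2) hRle
    have h4 := Wd_rcls (A := A + 2 * B) (A' := A + B) (c := t.2) hL hH hHN hlip (by omega) ht.1.1
      (hW t.1 t.2 ht.1.1 h3)
    refine le_trans (le_of_eq ?_) h4
    congr 2

end Pool.Agent.H43.TS
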