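import Pool.Agent.H43.TS.Pair
import Pool.Agent.H43.TP.M3

/-!
# TS Mp: the main terms: `badM` from the local Fourier uniformity (`badM_lfu`) and from the equidistribution in blocks and
reflected blocks (`badM_wd`)

`lamR R k = ∑_{r ≤ R} μ(r)/φ(r) ∑_{b mod r, (b,r)=1} e(k b/r)` (`ramS_eq`), `k = 2n - u`: `e((2n-u) b/r) = e(2n b/r) e(-u b/r)`;
if `∑_{u ∈ blk} G(u) e(-u b/r) = μ(r)/φ(r) H g + O(H/L^A)` for `r ≤ R` the main terms add up to `g H SR R (2n)`, the error is `R H/L^A`.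
-/

set_option autoImplicit false

namespace Pool.Agent.H43.TS

open Finset
open Pool.Agent.H91.PK (ee)
open Pool.Agent.H91.EHA (Lam lamR ramS)
open Pool.Agent.H43.MP (blk Hn idx Rn)
open Pool.Agent.H43.TP (rf Fh badF pr blk_card)
open Pool.Agent.H76.GB (SR)

/-- the reduced residues -/
private def Mp_red (r : ℕ) : Finset ℕ := (Icc 1 r).filter (fun b => Nat.Coprime b r)

private theorem Mp_card (r : ℕ) (_hr : 1 ≤ r) : (Mp_red r).card = r.totient := by
  have h := Nat.filter_coprime_Ico_eq_totient r 1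
  rw [← h]
  unfold Mp_red
  congr 1
  ext b
  simp only [mem_filter, mem_Icc, mem_Ico]
  constructor
  · rintro ⟨⟨h1, h2⟩, h3⟩
    exact ⟨⟨h1, by omega⟩, h3.symm⟩
  · rintro ⟨⟨h1, h2⟩, h3⟩
    exact ⟨⟨h1, by omega⟩, h3.symm⟩

/-- the general statement: `∑ g(u) Λ_R(E - v(u))` -/
private theorem Mp_gen (R : ℕ) (S : Finset ℕ) (g : ℕ → ℝ) (v : ℕ → ℕ) (E : ℕ)
    (hv : ∀ u ∈ S, v u ≤ E) (δ H : ℝ)
    (hgood : ∀ r ∈ Icc 1 R, ∀ b ∈ Mp_red r, ‖∑ u ∈ S, ((g u : ℝ) : ℂ) * ee (-((b : ℝ) * (v u : ℕ) / r))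
      - (((ArithmeticFunction.moebius r : ℝ) / (r.totient : ℝ) * H : ℝ) : ℂ)‖ ≤ δ) :
    |∑ u ∈ S, g u * lamR R (E - v u) - H * SR R E| ≤ R * δ := by
  -- the exact formula
  have hexact : ((∑ u ∈ S, g u * lamR R (E - v u) : ℝ) : ℂ)
      = ∑ r ∈ Icc 1 R, (((ArithmeticFunction.moebius r : ℝ) / (r.totient : ℝ) : ℝ) : ℂ)
        * ∑ b ∈ Mp_red r, ee ((E : ℝ) * b / r) * ∑ u ∈ S, ((g u : ℝ) : ℂ) * ee (-((b : ℝ) * (v u : ℕ) / r)) := by
    have h1 : ∀ u ∈ S, ((g u * lamR R (E - v u) : ℝ) : ℂ)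
        = ∑ r ∈ Icc 1 R, (((ArithmeticFunction.moebius r : ℝ) / (r.totient : ℝ) : ℝ) : ℂ)
          * ∑ b ∈ Mp_red r, ee ((E : ℝ) * b / r) * (((g u : ℝ) : ℂ) * ee (-((b : ℝ) * (v u : ℕ) / r))) := by
      intro u hu
      have hle := hv u hu
      have h3 : ((lamR R (E - v u) : ℝ) : ℂ) = ∑ r ∈ Icc 1 R,
          (((ArithmeticFunction.moebius r : ℝ) / (r.totient : ℝ) : ℝ) : ℂ)
            * ∑ b ∈ Mp_red r, ee (((E - v u : ℕ) : ℝ) * b / r) := by
        unfold lamR
        rw [Complex.ofReal_sum]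
        refine sum_congr rfl fun r hr => ?_
        rw [mem_Icc] at hr
        rw [Complex.ofReal_mul, Pool.Agent.H91.EHA.ramS_eq r _ hr.1]
        rfl
      rw [Complex.ofReal_mul, h3, mul_sum]
      refine sum_congr rfl fun r hr => ?_
      rw [mul_left_comm]
      congr 1
      rw [mul_sum]
      refine sum_congr rfl fun b _ => ?_
      have h4 : ee (((E - v u : ℕ) : ℝ) * b / r)
          = ee ((E : ℝ) * b / r) * ee (-((b : ℝ) * (v u : ℕ) / r)) := by
        rw [← Pool.Agent.H91.PK.LSa_ee_add]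
        congr 1
        rw [Nat.cast_sub hle]
        ring
      rw [h4]
      ring
    rw [Complex.ofReal_sum, sum_congr rfl h1, sum_comm]
    refine sum_congr rfl fun r _ => ?_
    rw [← mul_sum, sum_comm]
    congr 1
    refine sum_congr rfl fun b _ => ?_
    rw [← mul_sum]
  -- the main term
  have hmain : ((H * SR R E : ℝ) : ℂ) = ∑ r ∈ Icc 1 R,
      (((ArithmeticFunction.moebius r : ℝ) / (r.totient : ℝ) : ℝ) : ℂ)
        * ∑ b ∈ Mp_red r, ee ((E : ℝ) * b / r) *
          (((ArithmeticFunction.moebius r : ℝ) / (r.totient : ℝ) * H : ℝ) : ℂ) := by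
    unfold SR
    rw [Complex.ofReal_mul, Complex.ofReal_sum, mul_sum]
    refine sum_congr rfl fun r hr => ?_
    rw [mem_Icc] at hr
    have h1 := Pool.Agent.H91.EHA.ramS_eq r E hr.1
    have h2 : ((ArithmeticFunction.moebius r : ℝ) ^ 2 * ramS r E / (r.totient : ℝ) ^ 2 : ℝ)
        = ((ArithmeticFunction.moebius r : ℝ) / (r.totient : ℝ)) ^ 2 * ramS r E := by
      rw [div_pow]; ring
    rw [h2, Complex.ofReal_mul, h1, mul_sum, mul_sum, mul_sum]
    refine sum_congr rfl fun b _ => ?_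
    push_cast
    ring
  have hkey : ‖((∑ u ∈ S, g u * lamR R (E - v u) : ℝ) : ℂ) - ((H * SR R E : ℝ) : ℂ)‖
      ≤ ∑ r ∈ Icc 1 R, ∑ _b ∈ Mp_red r, 1 / (r.totient : ℝ) * δ := by
    rw [hexact, hmain, ← sum_sub_distrib]
    refine norm_sum_le_of_le _ fun r hr => ?_
    rw [← mul_sub, ← sum_sub_distrib, mul_sum]
    refine norm_sum_le_of_le _ fun b hb => ?_
    have hr1 : 1 ≤ r := (mem_Icc.1 hr).1
    have hphi : (0 : ℝ) < r.totient := by exact_mod_cast Nat.totient_pos.2 hr1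
    rw [← mul_sub, norm_mul, norm_mul, Pool.Agent.H91.PK.LSa_norm_ee, one_mul,
      Complex.norm_real, Real.norm_eq_abs, abs_div, abs_of_pos hphi]
    have hmu : |(ArithmeticFunction.moebius r : ℝ)| ≤ 1 := by
      have := ArithmeticFunction.abs_moebius_le_one (n := r)
      exact_mod_cast this
    exact mul_le_mul (div_le_div_of_nonneg_right hmu hphi.le) (hgood r hr b hb) (norm_nonneg _) (by positivity)
  rw [← Complex.ofReal_sub, Complex.norm_real, Real.norm_eq_abs] at hkey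
  refine hkey.trans (le_of_eq ?_)
  have : ∀ r ∈ Icc 1 R, ∑ _b ∈ Mp_red r, 1 / (r.totient : ℝ) * δ = δ := by
    intro r hr
    rw [mem_Icc] at hr
    rw [sum_const, Mp_card r hr.1, nsmul_eq_mul]
    have : (0 : ℝ) < r.totient := by exact_mod_cast Nat.totient_pos.2 hr.1
    field_simp
  rw [sum_congr rfl this]
  simp only [sum_const, Nat.card_Icc, nsmul_eq_mul, add_tsub_cancel_right]

private theorem Mp_r_le (B N r : ℕ) (hr : r ≤ Rn B N) : (r : ℝ) ≤ Real.log N ^ B := by
  have h1 : (r : ℝ) ≤ Rn B N := by exact_mod_cast hr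
  refine h1.trans ?_
  unfold Rn
  refine Nat.floor_le ?_
  have : 0 ≤ Real.log N := Real.log_natCast_nonneg N
  positivity

theorem m1q (N A B H i n : ℕ) (G g : ℕ → ℝ) (hi1 : 1 ≤ i) (hi : i ∈ idx N H) (hg : i ∉ badQ N H A B G g)
    (hn : n ∈ blk H i) :
    |rf H i G (lamR (Rn B N)) n - g i * (H * SR (Rn B N) (2 * n))| ≤ Rn B N * ((H : ℝ) / Real.log N ^ A) := by
  have e : g i * (H * SR (Rn B N) (2 * n)) = (H * g i) * SR (Rn B N) (2 * n) := by ring
  rw [e]
  unfold rf
  refine Mp_gen (Rn B N) (blk H i) G (fun u => u) (2 * n) ?_ ((H : ℝ) / Real.log N ^ A) (H * g i) ?_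
  · intro u hu
    unfold blk at hn hu
    rw [mem_Ico] at hn hu
    have h1 : (i + 1) * H ≤ 2 * (i * H) := by nlinarith
    show u ≤ 2 * n
    omega
  · intro r hr b hb
    by_contra hcon
    push Not at hcon
    apply hg
    classical
    unfold badQ
    rw [mem_Icc] at hr
    unfold Mp_red at hb
    rw [mem_filter] at hb
    simp only [mem_filter]
    exact ⟨hi, r, b, hr.1, Mp_r_le B N r hr.2, hb.2, hcon⟩

theorem m2q (N A B H n : ℕ) (G g : ℕ → ℝ) (hH : 1 ≤ H) (hHn : H ≤ n) (hn : n ∈ Ioc N (2 * N))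
    (hg : n ∉ badQN N H A B G g) :
    |rf H (n / H) (lamR (Rn B N)) G n - g (n / H) * (H * SR (Rn B N) (2 * n))| ≤
      Rn B N * ((H : ℝ) / Real.log N ^ A) := by
  have hle : ∀ u ∈ blk H (n / H), u ≤ 2 * n := by
    intro u hu
    unfold blk at hu
    rw [mem_Ico] at hu
    have h1 : n / H * H ≤ n := Nat.div_mul_le_self n H
    have h2 : (n / H + 1) * H = n / H * H + H := by ring
    omega
  have h0 : rf H (n / H) (lamR (Rn B N)) G n
      = ∑ u ∈ blk H (n / H), G (2 * n - u) * lamR (Rn B N) (2 * n - (2 * n - u)) := by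
    unfold rf
    refine sum_congr rfl fun u hu => ?_
    rw [Nat.sub_sub_self (hle u hu), mul_comm]
  have e : g (n / H) * (H * SR (Rn B N) (2 * n)) = (H * g (n / H)) * SR (Rn B N) (2 * n) := by ring
  rw [h0, e]
  refine Mp_gen (Rn B N) (blk H (n / H)) (fun u => G (2 * n - u)) (fun u => 2 * n - u) (2 * n)
    (fun u _ => Nat.sub_le _ _) ((H : ℝ) / Real.log N ^ A) (H * g (n / H)) ?_
  intro r hr b hb
  by_contra hcon
  push Not at hcon
  apply hg
  classical
  unfold badQN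
  rw [mem_Icc] at hr
  unfold Mp_red at hb
  rw [mem_filter] at hb
  simp only [mem_filter]
  exact ⟨hn, r, b, hr.1, Mp_r_le B N r hr.2, hb.2, hcon⟩

/-- the main term from the equidistribution -/
theorem badM_wd {N H A B D A' : ℕ} {G g : ℕ → ℝ} (hL : 400 ≤ Real.log N) (hH : 1 ≤ H) (hHN : 8 * H ≤ N)
    (hR : (Rn B N : ℝ) ≤ Real.log N ^ B) (hA1 : A + 1 ≤ A') (hA2 : B + D ≤ A')
    (h1 : ((badQ N H A' B G g).card : ℝ) ≤ (N : ℝ) / H / Real.log N ^ A')
    (h2 : ((badQN N H A' B G g).card : ℝ) ≤ (N : ℝ) / Real.log N ^ A') :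
    ((badM N H (Rn B N) D G g).card : ℝ) ≤ (N : ℝ) / Real.log N ^ A := by
  classical
  set L := Real.log N with hLdef
  have hL0 : 0 < L := by linarith
  have hL1 : 1 ≤ L := by linarith
  have hN0 : N ≠ 0 := by
    rintro rfl
    omega
  have hNpos : (0 : ℝ) < N := by exact_mod_cast Nat.pos_of_ne_zero hN0
  have hH0 : (0 : ℝ) < H := by exact_mod_cast hH
  have hRT : (Rn B N : ℝ) * ((H : ℝ) / L ^ A') ≤ H / L ^ D := by
    have t1 : (Rn B N : ℝ) * ((H : ℝ) / L ^ A') ≤ L ^ B * ((H : ℝ) / L ^ A') :=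
      mul_le_mul_of_nonneg_right hR (by positivity)
    refine t1.trans ?_
    rw [mul_div_assoc', div_le_div_iff₀ (by positivity) (by positivity)]
    have t3 : L ^ B * L ^ D ≤ L ^ A' := by
      rw [← pow_add]
      exact pow_le_pow_right₀ hL1 hA2
    calc L ^ B * H * L ^ D = H * (L ^ B * L ^ D) := by ring
      _ ≤ H * L ^ A' := mul_le_mul_of_nonneg_left t3 hH0.le
  have hsub : badM N H (Rn B N) D G g ⊆
      (Ioc N (2 * N)).filter (fun n => n / H ∈ badQ N H A' B G g) ∪ badQN N H A' B G g := by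
    intro n hn
    unfold badM at hn
    rw [mem_filter] at hn
    obtain ⟨hn1, hn2⟩ := hn
    by_contra hcon
    rw [mem_union, not_or] at hcon
    obtain ⟨c1, c2⟩ := hcon
    have hn1' := mem_Ioc.1 hn1
    have hc1 : n / H ∉ badQ N H A' B G g := fun h => c1 (by rw [mem_filter]; exact ⟨hn1, h⟩)
    obtain ⟨j1, j2, j3, j4⟩ := idx_nb N H hH hHN (n / H) (div_mem N H n hn1)
    have a1 := (m1q N A' B H (n / H) n G g (by omega) j3 hc1 (mem_blk_div H n hH)).trans hRT
    have a2 := (m2q N A' B H n G g hH (by omega) hn1 c2).trans hRT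
    rcases hn2 with h | h
    · linarith
    · linarith
  have hc : ((badM N H (Rn B N) D G g).card : ℝ) ≤ (badQ N H A' B G g).card * H + (badQN N H A' B G g).card := by
    have t1 := (card_le_card hsub).trans (card_union_le _ _)
    have t2 := cnt_blk N H hH (badQ N H A' B G g)
    exact_mod_cast t1.trans (Nat.add_le_add_right t2 _)
  refine hc.trans ?_
  have e1 : ((badQ N H A' B G g).card : ℝ) * H ≤ N / L ^ A' := by
    refine (mul_le_mul_of_nonneg_right h1 hH0.le).trans (le_of_eq ?_)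
    field_simp
  have e2 : (N : ℝ) / L ^ A' ≤ N / L ^ (A + 1) :=
    div_le_div_of_nonneg_left hNpos.le (by positivity) (pow_le_pow_right₀ hL1 hA1)
  have e3 : 2 * ((N : ℝ) / L ^ (A + 1)) ≤ N / L ^ A := by
    rw [pow_succ, ← div_div, mul_div_assoc', div_le_iff₀ hL0]
    have : 0 ≤ (N : ℝ) / L ^ A := by positivity
    nlinarith
  linarith

/-- the main term from the local Fourier uniformity -/
theorem badM_lfu {N H R A D A' : ℕ} {X k : ℕ → ℝ} (hL : 400 ≤ Real.log N) (hH : 1 ≤ H) (hHN : 8 * H ≤ N)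
    (hA : A + 2 * D + 10 ≤ A')
    (hR : 2 * (R : ℝ) ^ 4 ≤ H / Real.log N ^ (D + 1)) (hk1 : ∀ i ∈ idx N H, |k i| ≤ 1)
    (hlam : ∀ i ∈ idx N H, ∑ m ∈ blk H i, lamR R m ^ 2 ≤ H * Real.log N ^ 2)
    (hk : ∀ i ∈ idx N H, i + 1 ∈ idx N H → |k i - k (i + 1)| ≤ 1 / Real.log N ^ A')
    (hb : ((badF N H R A' X k).card : ℝ) ≤ (N : ℝ) / H / Real.log N ^ A') :
    ((badM N H R D X k).card : ℝ) ≤ (N : ℝ) / Real.log N ^ A := by
  classical
  set L := Real.log N with hLdef
  have hL0 : 0 < L := by linarith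
  have hL1 : 1 ≤ L := by linarith
  have hNpos : (0 : ℝ) < N := by
    have : N ≠ 0 := by
      rintro rfl
      omega
    exact_mod_cast Nat.pos_of_ne_zero this
  have hH0 : (0 : ℝ) < H := by exact_mod_cast hH
  have hE := badE_card (C := 2) (D := D + 1) (A := A) (Y := lamR R) (X := X) (k := k) (R := R) hL hH hHN (by omega)
    hlam hlam hk hb
  have hT : (H : ℝ) / L ^ (D + 1) * 2 ≤ H / L ^ D := by
    rw [pow_succ, ← div_div]
    have : 0 ≤ (H : ℝ) / L ^ D := by positivity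
    rw [div_mul_eq_mul_div, div_le_iff₀ hL0]
    nlinarith
  have hsub : badM N H R D X k ⊆ badE N H R (D + 1) X k (lamR R) := by
    intro n hn
    unfold badM at hn
    rw [mem_filter] at hn
    obtain ⟨hn1, hn2⟩ := hn
    by_contra hcon
    have hcon2 : ¬ ((H : ℝ) / L ^ (D + 1) < |rf H (n / H) (lamR R) (Fh R (k (n / H)) X) n| ∨
        (H : ℝ) / L ^ (D + 1) < |rf H (n / H) (Fh R (k (n / H)) X) (lamR R) n|) := by
      intro h
      apply hcon
      unfold badE
      rw [mem_filter]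
      exact ⟨hn1, h⟩
    push Not at hcon2
    obtain ⟨c1, c2⟩ := hcon2
    have hn1' := mem_Ioc.1 hn1
    obtain ⟨j1, j2, j3, j4⟩ := idx_nb N H hH hHN (n / H) (div_mem N H n hn1)
    have a3 := Pool.Agent.H43.TP.m3 R H (n / H) n (by omega) (mem_blk_div H n hH)
    set i := n / H with hi
    have hki := hk1 i j3
    have e1 : rf H i (lamR R) X n = k i * rf H i (lamR R) (lamR R) n + rf H i (lamR R) (Fh R (k i) X) n := by
      have := Pool.Agent.H43.TP.rf_add_right H i (lamR R) (lamR R) (Fh R (k i) X) (k i) n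
      rw [← this]
      congr 1
      exact Pool.Agent.H43.TP.F_split R (k i) X
    have e2 : rf H i X (lamR R) n = k i * rf H i (lamR R) (lamR R) n + rf H i (Fh R (k i) X) (lamR R) n := by
      have := Pool.Agent.H43.TP.rf_add_left H i (lamR R) (lamR R) (Fh R (k i) X) (k i) n
      rw [← this]
      congr 1
      exact Pool.Agent.H43.TP.F_split R (k i) X
    have a4 : |k i * rf H i (lamR R) (lamR R) n - k i * (H * SR R (2 * n))| ≤ H / L ^ (D + 1) := by
      rw [← mul_sub, abs_mul]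
      calc |k i| * |rf H i (lamR R) (lamR R) n - H * SR R (2 * n)| ≤ 1 * (R : ℝ) ^ 4 :=
            mul_le_mul hki a3 (abs_nonneg _) zero_le_one
        _ ≤ H / L ^ (D + 1) := by
            have : (0 : ℝ) ≤ (R : ℝ) ^ 4 := by positivity
            linarith
    rw [e1, e2] at hn2
    rcases hn2 with h | h
    · have h5 : |k i * rf H i (lamR R) (lamR R) n + rf H i (lamR R) (Fh R (k i) X) n - k i * (H * SR R (2 * n))| ≤
          H / L ^ (D + 1) + H / L ^ (D + 1) := by
        have : k i * rf H i (lamR R) (lamR R) n + rf H i (lamR R) (Fh R (k i) X) n - k i * (H * SR R (2 * n)) =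
          (k i * rf H i (lamR R) (lamR R) n - k i * (H * SR R (2 * n))) + rf H i (lamR R) (Fh R (k i) X) n := by
          ring
        rw [this]
        exact (abs_add_le _ _).trans (add_le_add a4 c1)
      linarith
    · have h5 : |k i * rf H i (lamR R) (lamR R) n + rf H i (Fh R (k i) X) (lamR R) n - k i * (H * SR R (2 * n))| ≤
          H / L ^ (D + 1) + H / L ^ (D + 1) := by
        have : k i * rf H i (lamR R) (lamR R) n + rf H i (Fh R (k i) X) (lamR R) n - k i * (H * SR R (2 * n)) =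
          (k i * rf H i (lamR R) (lamR R) n - k i * (H * SR R (2 * n))) + rf H i (Fh R (k i) X) (lamR R) n := by
          ring
        rw [this]
        exact (abs_add_le _ _).trans (add_le_add a4 c2)
      linarith
  have h1 : ((badM N H R D X k).card : ℝ) ≤ (badE N H R (D + 1) X k (lamR R)).card := by
    exact_mod_cast card_le_card hsub
  refine h1.trans (hE.trans ?_)
  exact div_le_div_of_nonneg_left hNpos.le (by positivity) (pow_le_pow_right₀ hL1 (by omega))

end Pool.Agent.H43.TS
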