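import Pool.Agent.H43.TS.Wd
import Pool.Agent.H43.TS.Mp
import Pool.Agent.H43.TP.Ev
import Pool.Agent.H31.EQ.Fin
import Pool.Agent.H31.EQ.Sparse

/-!
# TS EqM: the main term of the functions `Gs` (project EQ, helper31)
-/

set_option autoImplicit false

namespace Pool.Agent.H43.TS

open Finset
open Pool.Agent.H43.MP (blk Hn idx Rn)
open Pool.Agent.H53.MID (VKp)
open Pool.Agent.H31.EQ (Gs gam WDx sqz)

/-- the main term from `WDx` with the long average as density -/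
theorem badM_wdx (θ : ℝ) (h0 : 0 < θ) (h2 : θ < 1 / 3) (A B D A1 : ℕ) : ∃ N0 : ℕ, ∀ N : ℕ, N0 ≤ N → ∀ Y : ℕ → ℝ,
    (∀ n, 1 ≤ n → n ≤ 16 * N → |Y n| ≤ 10) →
    WDx N (Hn θ N) (4 * A + 9 * B + 4 * D + 6) B Y (gam Y ⌊(N : ℝ) / Real.log N ^ A1⌋₊) →
      ((badM N (Hn θ N) (Rn B N) D Y (fun i => gam Y ⌊(N : ℝ) / Real.log N ^ A1⌋₊ (i * Hn θ N))).card : ℝ) ≤
        (N : ℝ) / Real.log N ^ A := by
  set A' := A + B + D + 1 with hA'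
  obtain ⟨N3, hN3⟩ := Pool.Agent.H43.TP.ev_large θ 1 h0 h2 one_pos le_rfl B
  obtain ⟨N4, hN4⟩ := Pool.Agent.H76.GB.log_pow_le (2 / 3) 640 (by norm_num) (by norm_num) (A1 + A' + B)
  obtain ⟨N6, hN6⟩ := Pool.Agent.H76.GB.log_pow_le (2 / 3) 32 (by norm_num) (by norm_num) 0
  refine ⟨N3 + N4 + N6 + 640, fun N hN G hgs hW => ?_⟩
  obtain ⟨f1, f2, f3, f4, f5, f6, f7, f8, -, -, -⟩ := hN3 N (by omega)
  have g4 := hN4 N (by omega)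
  have g6 := hN6 N (by omega)
  rw [pow_zero, mul_one] at g6
  rw [one_mul] at f1
  set L := Real.log N with hLdef
  set H := Hn θ N with hHdef
  have hN0 : N ≠ 0 := by omega
  have hN1' : (1 : ℝ) ≤ N := by exact_mod_cast Nat.one_le_iff_ne_zero.2 hN0
  have hNpos : (0 : ℝ) < N := by linarith
  have hL0 : 0 < L := by linarith
  have hL1 : 1 ≤ L := by linarith
  have hH0 : (0 : ℝ) < H := by exact_mod_cast f3
  have hadd : ∀ a b : ℝ, (N : ℝ) ^ (a + b) = (N : ℝ) ^ a * (N : ℝ) ^ b := fun a b => Real.rpow_add hNpos a b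
  -- sizes
  have hH3 : (H : ℝ) ≤ (N : ℝ) ^ (1 / 3 : ℝ) := by
    have t0 : (H : ℝ) ≤ (N : ℝ) ^ θ := Nat.floor_le (by positivity)
    exact t0.trans (Real.rpow_le_rpow_of_exponent_le hN1' h2.le)
  have hN3' : (N : ℝ) = (N : ℝ) ^ (1 / 3 : ℝ) * (N : ℝ) ^ (2 / 3 : ℝ) := by
    rw [← hadd]
    norm_num
  have hHN : 16 * (H + 20) ≤ N := by
    have t1 : (32 : ℝ) * H ≤ N := by
      calc (32 : ℝ) * H = H * 32 := by ring
        _ ≤ (N : ℝ) ^ (1 / 3 : ℝ) * (N : ℝ) ^ (2 / 3 : ℝ) := mul_le_mul hH3 g6 (by norm_num) (by positivity)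
        _ = N := hN3'.symm
    have t2 : 32 * H ≤ N := by exact_mod_cast t1
    omega
  have hbig : 640 * (H : ℝ) * L ^ (A1 + A' + B) ≤ N := by
    calc 640 * (H : ℝ) * L ^ (A1 + A' + B) = H * (640 * L ^ (A1 + A' + B)) := by ring
      _ ≤ (N : ℝ) ^ (1 / 3 : ℝ) * (N : ℝ) ^ (2 / 3 : ℝ) := mul_le_mul hH3 g4 (by positivity) (by positivity)
      _ = N := hN3'.symm
  set H1 := ⌊(N : ℝ) / L ^ A1⌋₊ with hH1
  have hLp : ∀ n : ℕ, 1 ≤ L ^ n := fun n => one_le_pow₀ hL1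
  have hq1 : 1 ≤ (N : ℝ) / L ^ A1 := by
    rw [le_div_iff₀ (by positivity), one_mul]
    have t1 : L ^ A1 ≤ L ^ (A1 + A' + B) := pow_le_pow_right₀ hL1 (by omega)
    have t2 : (1 : ℝ) ≤ H := by exact_mod_cast f3
    nlinarith [hLp A1]
  have hH1pos : 1 ≤ H1 := (Nat.one_le_floor_iff _).2 hq1
  have hH1le : (H1 : ℝ) ≤ N := (Nat.floor_le (by positivity)).trans (div_le_self hNpos.le (hLp A1))
  have hH1leN : H1 ≤ N := by exact_mod_cast hH1le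
  have hH1ge : (N : ℝ) / (2 * L ^ A1) ≤ H1 := by
    have t1 := Nat.lt_floor_add_one ((N : ℝ) / L ^ A1)
    have t2 : (1 : ℝ) ≤ (H1 : ℝ) := by exact_mod_cast hH1pos
    have t3 : (N : ℝ) / (2 * L ^ A1) = (N : ℝ) / L ^ A1 / 2 := by
      rw [mul_comm 2, ← div_div]
    rw [t3]
    have t4 : (N : ℝ) / L ^ A1 < H1 + 1 := t1
    linarith
  have hlip : ∀ x x' : ℕ, x ≤ x' + 2 * H → x' ≤ x + 2 * H → N ≤ 8 * x → x ≤ 8 * N → N ≤ 8 * x' → x' ≤ 8 * N →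
      |gam G H1 x - gam G H1 x'| ≤ 1 / (8 * L ^ (A' + B)) := by
    intro x x' a1 a2 a3 a4 a5 a6
    have t1 := Pool.Agent.H31.EQ.gam_lip G 10 H1 x x' hH1pos (by norm_num) (fun n hn1 hn2 => hgs n hn1 (by
      have : max x x' ≤ 8 * N := max_le a4 a6
      omega))
    refine t1.trans ?_
    have t2 : |(x : ℝ) - x'| ≤ 2 * H := by
      rw [abs_le]
      have b1 : (x : ℝ) ≤ x' + 2 * H := by exact_mod_cast a1
      have b2 : (x' : ℝ) ≤ x + 2 * H := by exact_mod_cast a2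
      constructor <;> linarith
    have hH1R : (0 : ℝ) < H1 := by exact_mod_cast hH1pos
    rw [div_le_div_iff₀ hH1R (by positivity), one_mul]
    have t3 : 2 * 10 * |(x : ℝ) - x'| * (8 * L ^ (A' + B)) ≤ 2 * 10 * (2 * H) * (8 * L ^ (A' + B)) :=
      mul_le_mul_of_nonneg_right (by linarith) (by positivity)
    refine t3.trans (le_trans ?_ hH1ge)
    rw [le_div_iff₀ (by positivity)]
    have hp : L ^ A1 * L ^ (A' + B) = L ^ (A1 + A' + B) := by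
      rw [← pow_add]
      congr 1
      omega
    calc 2 * 10 * (2 * (H : ℝ)) * (8 * L ^ (A' + B)) * (2 * L ^ A1) = 640 * H * (L ^ A1 * L ^ (A' + B)) := by ring
      _ = 640 * H * L ^ (A1 + A' + B) := by rw [hp]
      _ ≤ N := hbig
  have hY : ∀ n : ℕ, 1 ≤ n → n ≤ 16 * N → |G n| ≤ L ^ 1 := by
    intro n hn1 hn2
    rw [pow_one]
    exact (hgs n hn1 hn2).trans (by linarith)
  have q1 := badQ_wd (A := A') (B := B) (C := 1) (η := gam G H1) f1 f3 hHN hY hlip (by omega) hW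
  have q2 := badQN_wd (A := A') (B := B) (η := gam G H1) f1 f3 hHN hlip (by omega) hW
  exact badM_wd (A := A) (D := D) (A' := A') f1 f3 f4 f8 (by omega) (by omega) q1 q2

private theorem EqM_low (θ e : ℝ) (h1 : 1 / 5 + e < θ) : ∃ N0 : ℕ, ∀ N : ℕ, N0 ≤ N → 1 ≤ Hn θ N →
    (N : ℝ) ^ θ / 2 ≤ Hn θ N → (N : ℝ) ^ (1 / 5 + e) ≤ Hn θ N := by
  obtain ⟨N5, hN5⟩ := Pool.Agent.H76.GB.log_pow_le (θ - (1 / 5 + e)) 2 (by linarith) (by norm_num) 0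
  refine ⟨N5 + 1, fun N hN _ f2 => ?_⟩
  have g5 := hN5 N (by omega)
  rw [pow_zero, mul_one] at g5
  have hNpos : (0 : ℝ) < N := by exact_mod_cast (by omega : 0 < N)
  have t1 : (N : ℝ) ^ θ = (N : ℝ) ^ (θ - (1 / 5 + e)) * (N : ℝ) ^ (1 / 5 + e) := by
    rw [← Real.rpow_add hNpos]
    congr 1
    ring
  have t2 : 2 * (N : ℝ) ^ (1 / 5 + e) ≤ (N : ℝ) ^ θ := by
    rw [t1]
    exact mul_le_mul_of_nonneg_right g5 (by positivity)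
  linarith

theorem badM_gs (hVK : VKp) (θ e : ℝ) (he : 0 < e) (h1 : 1 / 5 + e < θ) (h2 : θ < 1 / 3) (A B D : ℕ) :
    ∃ A0 : ℕ, ∀ A1 : ℕ, A0 ≤ A1 → ∃ N0 : ℕ, ∀ N : ℕ, N0 ≤ N → ∀ (y J0 J1 : ℕ) (b : ℕ → ℕ → ℝ),
      (N : ℝ) ^ (1 / 5 + e) ≤ (2 ^ J0 * y : ℕ) → ((2 ^ J1 * y : ℕ) : ℝ) ^ 2 * Hn θ N ≤ N →
      (∀ j k, |b j k| ≤ 1) →
      (∀ j k, b j k ≠ 0 → ∀ q : ℕ, q.Prime → q ∣ k → Real.log N ^ B < q) →
      ((badM N (Hn θ N) (Rn B N) D (Gs b y J0 J1)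
        (fun i => gam (Gs b y J0 J1) ⌊(N : ℝ) / Real.log N ^ A1⌋₊ (i * Hn θ N))).card : ℝ) ≤
        (N : ℝ) / Real.log N ^ A := by
  obtain ⟨A0, hA0⟩ := Pool.Agent.H31.EQ.eq2 hVK e he (4 * A + 9 * B + 4 * D + 6) B
  refine ⟨A0, fun A1 hA1 => ?_⟩
  obtain ⟨N1, hN1⟩ := hA0 A1 hA1
  obtain ⟨N2, hN2⟩ := Pool.Agent.H31.EQ.gs_le e he
  obtain ⟨N3, hN3⟩ := Pool.Agent.H43.TP.ev_large θ 1 (by linarith) h2 one_pos le_rfl B
  obtain ⟨N4, hN4⟩ := badM_wdx θ (by linarith) h2 A B D A1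
  obtain ⟨N5, hN5⟩ := EqM_low θ e h1
  refine ⟨N1 + N2 + N3 + N4 + N5, fun N hN y J0 J1 b hb1 hb2 hb3 hb4 => ?_⟩
  obtain ⟨f1, f2, f3, -⟩ := hN3 N (by omega)
  have hgs := hN2 N (by omega) y J0 J1 b hb1 hb3
  have hlow := hN5 N (by omega) f3 f2
  exact hN4 N (by omega) _ (fun n a1 a2 => (hgs n a1 a2).trans (by norm_num))
    (hN1 N (by omega) (Hn θ N) y J0 J1 b hlow hb1 hb2 hb3 hb4)

/-- the same for a function that agrees with `Gs` outside the multiples of large squares of primes -/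
theorem badM_ex (hVK : VKp) (θ e : ℝ) (he : 0 < e) (h1 : 1 / 5 + e < θ) (h2 : θ < 1 / 3) (A B D : ℕ) :
    ∃ A0 : ℕ, ∀ A1 : ℕ, A0 ≤ A1 → ∃ N0 : ℕ, ∀ N : ℕ, N0 ≤ N → ∀ (y J0 J1 : ℕ) (b : ℕ → ℕ → ℝ) (Y : ℕ → ℝ),
      (N : ℝ) ^ (1 / 5 + e) ≤ (2 ^ J0 * y : ℕ) → ((2 ^ J1 * y : ℕ) : ℝ) ^ 2 * Hn θ N ≤ N →
      (∀ j k, |b j k| ≤ 1) →
      (∀ j k, b j k ≠ 0 → ∀ q : ℕ, q.Prime → q ∣ k → Real.log N ^ B < q) →
      (∀ n, 1 ≤ n → n ≤ 16 * N → |Y n| ≤ 10) →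
      (∀ n, 1 ≤ n → n ≤ 16 * N → ¬ sqz (2 ^ J0 * y) n → Gs b y J0 J1 n = Y n) →
      ((badM N (Hn θ N) (Rn B N) D Y
        (fun i => gam Y ⌊(N : ℝ) / Real.log N ^ A1⌋₊ (i * Hn θ N))).card : ℝ) ≤
        (N : ℝ) / Real.log N ^ A := by
  obtain ⟨A0, hA0⟩ := Pool.Agent.H31.EQ.eq2 hVK e he (4 * A + 9 * B + 4 * D + 6 + 1) B
  refine ⟨A0, fun A1 hA1 => ?_⟩
  obtain ⟨N1, hN1⟩ := hA0 A1 hA1
  obtain ⟨N2, hN2⟩ := Pool.Agent.H31.EQ.gs_le e he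
  obtain ⟨N3, hN3⟩ := Pool.Agent.H43.TP.ev_large θ 1 (by linarith) h2 one_pos le_rfl B
  obtain ⟨N4, hN4⟩ := badM_wdx θ (by linarith) h2 A B D A1
  obtain ⟨N5, hN5⟩ := EqM_low θ e h1
  obtain ⟨N6, hN6⟩ := Pool.Agent.H31.EQ.wdx_sq (4 * A + 9 * B + 4 * D + 6) B
  obtain ⟨N7, hN7⟩ := Pool.Agent.H76.GB.log_pow_le (1 / 4) 2 (by norm_num) (by norm_num) A1
  refine ⟨N1 + N2 + N3 + N4 + N5 + N6 + N7, fun N hN y J0 J1 b Y hb1 hb2 hb3 hb4 hY hE => ?_⟩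
  obtain ⟨f1, f2, f3, -⟩ := hN3 N (by omega)
  have hgs := hN2 N (by omega) y J0 J1 b hb1 hb3
  have hlow := hN5 N (by omega) f3 f2
  have h7 := hN7 N (by omega)
  have hW := hN1 N (by omega) (Hn θ N) y J0 J1 b hlow hb1 hb2 hb3 hb4
  rw [one_mul] at f1
  have hN0 : N ≠ 0 := by
    rintro rfl
    norm_num at f1
  have hN1' : (1 : ℝ) ≤ N := by exact_mod_cast Nat.one_le_iff_ne_zero.2 hN0
  have hNpos : (0 : ℝ) < N := by linarith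
  set L := Real.log N with hLdef
  have hL1 : 1 ≤ L := by linarith
  have hLp : ∀ n : ℕ, 1 ≤ L ^ n := fun n => one_le_pow₀ hL1
  refine hN4 N (by omega) Y hY (hN6 N (by omega) (Hn θ N) _ (2 ^ J0 * y) (Gs b y J0 J1) Y ?_ ?_ ?_ ?_
    (fun n a1 a2 => (hgs n a1 a2).trans (by norm_num)) hY hE hW)
  · exact (Real.rpow_le_rpow_of_exponent_le hN1' (by linarith)).trans hb1
  · have t0 : (Hn θ N : ℝ) ≤ (N : ℝ) ^ θ := Nat.floor_le (by positivity)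
    exact t0.trans (Real.rpow_le_rpow_of_exponent_le hN1' (by linarith))
  · have t1 := Nat.lt_floor_add_one ((N : ℝ) / L ^ A1)
    have t2 : (N : ℝ) = (N : ℝ) ^ (3 / 4 : ℝ) * (N : ℝ) ^ (1 / 4 : ℝ) := by
      rw [← Real.rpow_add hNpos]
      norm_num
    have t3 : 2 * (N : ℝ) ^ (3 / 4 : ℝ) ≤ (N : ℝ) / L ^ A1 := by
      rw [le_div_iff₀ (by positivity)]
      calc 2 * (N : ℝ) ^ (3 / 4 : ℝ) * L ^ A1 = (N : ℝ) ^ (3 / 4 : ℝ) * (2 * L ^ A1) := by ring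
        _ ≤ (N : ℝ) ^ (3 / 4 : ℝ) * (N : ℝ) ^ (1 / 4 : ℝ) := mul_le_mul_of_nonneg_left h7 (by positivity)
        _ = N := t2.symm
    have t4 : 1 ≤ (N : ℝ) ^ (3 / 4 : ℝ) := Real.one_le_rpow hN1' (by norm_num)
    linarith
  · exact (Nat.floor_le (by positivity)).trans (div_le_self hNpos.le (hLp A1))

end Pool.Agent.H43.TS
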