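import Pool.Agent.H43.TS.Pair
import Pool.Agent.H43.TP.Ev
import Pool.Agent.H43.TP.LamSq
import Pool.Agent.H43.TP.Res

/-!
# TS Fin: two primes with `|x| ≤ n^θ` from a certificate (`CERT`)
-/

set_option autoImplicit false

namespace Pool.Agent.H43.TS

open Finset
open Pool.Agent.H91.PK (ee)
open Pool.Agent.H91.EHA (Lam lamR ramS)
open Pool.Agent.H43.MP (blk Hn idx Rn)
open Pool.Agent.H43.TP (rf Fh badF pr cn sol2 solT)
open Pool.Agent.H76.GB (SR)

private theorem Fin_SR (R E : ℕ) (hR : 1 ≤ R) (hE : 1 ≤ E) : 1 ≤ SR R (2 * E) := by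
  rcases Nat.lt_or_ge 1 R with h | h
  · exact Pool.Agent.H76.GB.sr_ge R (2 * E) h (by omega) (dvd_mul_right 2 E)
  · have : R = 1 := by omega
    subst this
    unfold SR ramS
    simp

/-- one product -/
private theorem Fin_prod (H i R n : ℕ) (X Y : ℕ → ℝ) (k l T S : ℝ) (hk : |k| ≤ 1)
    (h1 : |rf H i (lamR R) Y n - l * (H * S)| ≤ T) (h2 : |rf H i Y (lamR R) n - l * (H * S)| ≤ T)
    (h3 : |rf H i Y (Fh R k X) n| ≤ T) (h4 : |rf H i (Fh R k X) Y n| ≤ T) :
    2 * (k * l) * (H * S) - 4 * T ≤ rf H i X Y n + rf H i Y X n := by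
  have e1 : rf H i X Y n = k * rf H i (lamR R) Y n + rf H i (Fh R k X) Y n := by
    have := Pool.Agent.H43.TP.rf_add_left H i Y (lamR R) (Fh R k X) k n
    rw [← this]
    congr 1
    exact Pool.Agent.H43.TP.F_split R k X
  have e2 : rf H i Y X n = k * rf H i Y (lamR R) n + rf H i Y (Fh R k X) n := by
    have := Pool.Agent.H43.TP.rf_add_right H i Y (lamR R) (Fh R k X) k n
    rw [← this]
    congr 1
    exact Pool.Agent.H43.TP.F_split R k X
  have hT : 0 ≤ T := (abs_nonneg _).trans h1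
  have a1 : |k * (rf H i (lamR R) Y n - l * (H * S))| ≤ T := by
    rw [abs_mul]
    calc |k| * |rf H i (lamR R) Y n - l * (H * S)| ≤ 1 * T := mul_le_mul hk h1 (abs_nonneg _) zero_le_one
      _ = T := one_mul _
  have a2 : |k * (rf H i Y (lamR R) n - l * (H * S))| ≤ T := by
    rw [abs_mul]
    calc |k| * |rf H i Y (lamR R) n - l * (H * S)| ≤ 1 * T := mul_le_mul hk h2 (abs_nonneg _) zero_le_one
      _ = T := one_mul _
  rw [e1, e2]
  have b1 := (abs_le.1 a1).1
  have b2 := (abs_le.1 a2).1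
  have b3 := (abs_le.1 h3).1
  have b4 := (abs_le.1 h4).1
  nlinarith

theorem cert_final (θ c : ℝ) (s : ℕ) (h0 : 0 < θ) (h1 : θ < 1 / 3) (hc : 0 < c) (hcert : CERT θ c s) (A : ℕ) :
    ∃ N0 : ℕ, ∀ N : ℕ, N0 ≤ N →
      (((Ioc N (2 * N)).filter (fun n =>
        ((sol2 (Hn θ N) n).ncard : ℝ) < c / 4 * (N : ℝ) ^ θ / Real.log N ^ 2)).card : ℝ)
      ≤ N / Real.log N ^ A := by
  classical
  obtain ⟨C, hcert⟩ := hcert
  obtain ⟨B, N1, hF⟩ := hcert (A + C + 12)
  obtain ⟨N4, hE⟩ := Pool.Agent.H43.TP.ev_large θ 1 h0 h1 one_pos le_rfl B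
  obtain ⟨N6, hlam⟩ := Pool.Agent.H43.TP.lamR_blk B
  obtain ⟨N7, hlog⟩ := Pool.Agent.H76.GB.log_ge (8 * s / c + 2 * s)
  refine ⟨max (max N1 N4) (max N6 N7), fun N hN => ?_⟩
  simp only [max_le_iff] at hN
  obtain ⟨⟨hn1, hn4⟩, hn6, hn7⟩ := hN
  obtain ⟨X, Y, k, l, p1, p2, p3, p4, p5, p6, p7⟩ := hF N hn1
  obtain ⟨f1, f2, f3, f4, f5, f6, f7, f8, -, -, -⟩ := hE N hn4
  replace hlam := hlam N hn6
  replace hlog := hlog N hn7
  rw [one_mul] at f1
  set L := Real.log N with hLdef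
  set H := Hn θ N with hHdef
  set R := Rn B N with hRdef
  have hN0 : N ≠ 0 := by
    rintro rfl
    rw [hLdef] at f1
    norm_num at f1
  have hNpos : (0 : ℝ) < N := by exact_mod_cast Nat.pos_of_ne_zero hN0
  have hL0 : 0 < L := by linarith
  have hL1 : 1 ≤ L := by linarith
  have hH0 : (0 : ℝ) < H := by exact_mod_cast f3
  have hs0 : (0 : ℝ) ≤ s := Nat.cast_nonneg s
  have hsc : 0 ≤ 8 * (s : ℝ) / c := by positivity
  set T : ℝ := H / L ^ 3 with hTdef
  have hT0 : 0 < T := by positivity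
  have hidx2 : ∀ i ∈ idx N H, 1 ≤ i := by
    intro i hi
    have := idx_lo N H f3 f4 i hi
    rcases Nat.eq_zero_or_pos i with h | h
    · rw [h] at this
      omega
    · exact h
  have hE : ∀ j : Fin s, ((badE N H R 3 (X j) (k j) (Y j)).card : ℝ) ≤ (N : ℝ) / L ^ (A + 1) := by
    intro j
    exact badE_card (A := A) (C := C) (D := 3) (A' := A + C + 12) f1 f3 f4 (by omega)
      (fun i hi => hlam H i (hidx2 i hi) f5) (p3 j) (p4 j) (p5 j)
  -- the exceptional set
  set Z1 := (univ : Finset (Fin s)).biUnion (fun j => badE N H R 3 (X j) (k j) (Y j)) with hZ1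
  set Z2 := (univ : Finset (Fin s)).biUnion (fun j => badM N H R 3 (Y j) (l j)) with hZ2
  have hsub : (Ioc N (2 * N)).filter (fun n =>
        ((sol2 H n).ncard : ℝ) < c / 4 * (N : ℝ) ^ θ / L ^ 2) ⊆ Z1 ∪ Z2 := by
    intro n hn
    rw [mem_filter] at hn
    obtain ⟨hn1, hn2⟩ := hn
    by_contra hcon
    rw [mem_union, not_or] at hcon
    obtain ⟨c1, c2⟩ := hcon
    have hn1' := mem_Ioc.1 hn1
    obtain ⟨j1, j2, j3, j4⟩ := idx_nb N H f3 f4 (n / H) (div_mem N H n hn1)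
    have hnb := mem_blk_div H n f3
    have hbE : ∀ j : Fin s, |rf H (n / H) (Y j) (Fh R (k j (n / H)) (X j)) n| ≤ T ∧
        |rf H (n / H) (Fh R (k j (n / H)) (X j)) (Y j) n| ≤ T := by
      intro j
      by_contra h
      apply c1
      rw [hZ1, mem_biUnion]
      refine ⟨j, mem_univ j, ?_⟩
      unfold badE
      rw [mem_filter]
      refine ⟨hn1, ?_⟩
      by_contra h2
      push Not at h2
      exact h h2
    have hbM : ∀ j : Fin s, |rf H (n / H) (lamR R) (Y j) n - l j (n / H) * (H * SR R (2 * n))| ≤ T ∧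
        |rf H (n / H) (Y j) (lamR R) n - l j (n / H) * (H * SR R (2 * n))| ≤ T := by
      intro j
      by_contra h
      apply c2
      rw [hZ2, mem_biUnion]
      refine ⟨j, mem_univ j, ?_⟩
      unfold badM
      rw [mem_filter]
      refine ⟨hn1, ?_⟩
      by_contra h2
      push Not at h2
      exact h h2
    set i := n / H with hi
    have hnb' := hnb
    unfold blk at hnb'
    rw [mem_Ico] at hnb'
    have ee1 : (i + 1) * H = i * H + H := by ring
    -- the window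
    have w1 : ∀ u ∈ blk H i, N ≤ 4 * u ∧ u ≤ 4 * N ∧ N ≤ 4 * (2 * n - u) ∧ 2 * n - u ≤ 4 * N := by
      intro u hu
      unfold blk at hu
      rw [mem_Ico] at hu
      omega
    have key : ∑ j, (rf H i (X j) (Y j) n + rf H i (Y j) (X j) n) ≤ cn H i n := by
      unfold cn rf
      have e1 : ∑ j : Fin s, (∑ u ∈ blk H i, X j u * Y j (2 * n - u) + ∑ u ∈ blk H i, Y j u * X j (2 * n - u)) =
          ∑ u ∈ blk H i, ∑ j : Fin s, (X j u * Y j (2 * n - u) + Y j u * X j (2 * n - u)) := by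
        rw [sum_comm]
        refine sum_congr rfl fun j _ => ?_
        rw [sum_add_distrib]
      rw [e1]
      refine sum_le_sum fun u hu => ?_
      obtain ⟨a1, a2, a3, a4⟩ := w1 u hu
      exact p1 u (2 * n - u) a1 a2 a3 a4
    have hlow : ∀ j : Fin s, 2 * (k j i * l j i) * (H * SR R (2 * n)) - 4 * T ≤
        rf H i (X j) (Y j) n + rf H i (Y j) (X j) n := fun j =>
      Fin_prod H i R n (X j) (Y j) (k j i) (l j i) T (SR R (2 * n)) (p2 j i j3) (hbM j).1 (hbM j).2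
        (hbE j).1 (hbE j).2
    have hsum := (sum_le_sum fun j (_ : j ∈ (univ : Finset (Fin s))) => hlow j).trans key
    have hSR : 1 ≤ SR R (2 * n) := Fin_SR R n f7 (by omega)
    have e2 : ∑ j : Fin s, (2 * (k j i * l j i) * (H * SR R (2 * n)) - 4 * T) =
        (2 * ∑ j : Fin s, k j i * l j i) * (H * SR R (2 * n)) - s * (4 * T) := by
      rw [sum_sub_distrib, sum_const, card_univ, Fintype.card_fin, nsmul_eq_mul, ← sum_mul, mul_sum]
    rw [e2] at hsum
    have e3 : c / L ^ 2 * (H * 1) ≤ (2 * ∑ j : Fin s, k j i * l j i) * (H * SR R (2 * n)) := by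
      refine mul_le_mul (p7 i j3) (mul_le_mul_of_nonneg_left hSR hH0.le) (by positivity) ?_
      exact le_trans (by positivity) (p7 i j3)
    have e4 : (s : ℝ) * (4 * T) ≤ c / 2 * (H / L ^ 2) := by
      have t1 : T * L = H / L ^ 2 := by
        rw [hTdef]
        field_simp
      rw [← t1]
      have t2 : 8 * (s : ℝ) ≤ c * L := by
        have t3 : 8 * (s : ℝ) / c ≤ L := by linarith
        rw [div_le_iff₀ hc] at t3
        linarith
      nlinarith
    have h5 := hsum.trans (Pool.Agent.H43.TP.cn_le H i n (by omega) hnb)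
    have h6 : c / 4 * (N : ℝ) ^ θ / L ^ 2 ≤ c / 2 * (H / L ^ 2) := by
      have t1 : c / 4 * (N : ℝ) ^ θ / L ^ 2 = c / 2 * ((N : ℝ) ^ θ / 2 / L ^ 2) := by ring
      rw [t1]
      refine mul_le_mul_of_nonneg_left ?_ (by positivity)
      exact div_le_div_of_nonneg_right f2 (by positivity)
    have e5 : c / L ^ 2 * (H * 1) = c * (H / L ^ 2) := by ring
    linarith
  have hc1 : (Z1.card : ℝ) ≤ s * (N / L ^ (A + 1)) := by
    have t1 : (Z1.card : ℝ) ≤ ∑ j : Fin s, ((badE N H R 3 (X j) (k j) (Y j)).card : ℝ) := by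
      exact_mod_cast card_biUnion_le
    refine t1.trans ((sum_le_sum fun j _ => hE j).trans (le_of_eq ?_))
    rw [sum_const, card_univ, Fintype.card_fin, nsmul_eq_mul]
  have hc2 : (Z2.card : ℝ) ≤ s * (N / L ^ (A + 1)) := by
    have t1 : (Z2.card : ℝ) ≤ ∑ j : Fin s, ((badM N H R 3 (Y j) (l j)).card : ℝ) := by
      exact_mod_cast card_biUnion_le
    have t2 : ∀ j : Fin s, ((badM N H R 3 (Y j) (l j)).card : ℝ) ≤ N / L ^ (A + 1) := fun j =>
      (p6 j).trans (div_le_div_of_nonneg_left hNpos.le (by positivity) (pow_le_pow_right₀ hL1 (by omega)))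
    refine t1.trans ((sum_le_sum fun j _ => t2 j).trans (le_of_eq ?_))
    rw [sum_const, card_univ, Fintype.card_fin, nsmul_eq_mul]
  have hcard : (((Ioc N (2 * N)).filter (fun n =>
        ((sol2 H n).ncard : ℝ) < c / 4 * (N : ℝ) ^ θ / L ^ 2)).card : ℝ) ≤ Z1.card + Z2.card := by
    exact_mod_cast (card_le_card hsub).trans (card_union_le _ _)
  refine hcard.trans ((add_le_add hc1 hc2).trans ?_)
  have e : (s : ℝ) * (N / L ^ (A + 1)) + s * (N / L ^ (A + 1)) = (2 * s / L) * (N / L ^ A) := by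
    rw [pow_succ]
    field_simp
    ring
  rw [e]
  have h2s : 2 * (s : ℝ) / L ≤ 1 := by
    rw [div_le_one hL0]
    linarith
  calc (2 * s / L) * (N / L ^ A) ≤ 1 * (N / L ^ A) := mul_le_mul_of_nonneg_right h2s (by positivity)
    _ = N / L ^ A := one_mul _

/-- the theorem of the hand-in from a certificate -/
theorem cert_res (θ c : ℝ) (s : ℕ) (h0 : 0 < θ) (h1 : θ < 1 / 3) (hc : 0 < c) (hcert : CERT θ c s) (A : ℕ) :
    ∃ N0 : ℕ, ∀ N : ℕ, N0 ≤ N →
      ({n : ℕ | N < n ∧ n ≤ 2 * N ∧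
        ((solT θ N n).ncard : ℝ) < c / 4 * (N : ℝ) ^ θ / Real.log N ^ 2}.ncard : ℝ)
      ≤ N / Real.log N ^ A := by
  classical
  obtain ⟨N0, h⟩ := cert_final θ c s h0 h1 hc hcert A
  refine ⟨N0, fun N hN => ?_⟩
  refine le_trans ?_ (h N hN)
  have hsub : {n : ℕ | N < n ∧ n ≤ 2 * N ∧
        ((solT θ N n).ncard : ℝ) < c / 4 * (N : ℝ) ^ θ / Real.log N ^ 2} ⊆
      (((Ioc N (2 * N)).filter (fun n =>
        ((sol2 (Hn θ N) n).ncard : ℝ) < c / 4 * (N : ℝ) ^ θ / Real.log N ^ 2) : Finset ℕ) : Set ℕ) := by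
    rintro n ⟨ha, hb, hc⟩
    rw [Finset.mem_coe, mem_filter, mem_Ioc]
    refine ⟨⟨ha, hb⟩, lt_of_le_of_lt ?_ hc⟩
    exact_mod_cast Set.ncard_le_ncard (Pool.Agent.H43.TP.sol2_sub θ N n) (Pool.Agent.H43.TP.solT_finite θ N n)
  have := Set.ncard_le_ncard hsub (Finset.finite_toSet _)
  rw [Set.ncard_coe_finset] at this
  exact_mod_cast this

end Pool.Agent.H43.TS
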