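import Pool.Agent.H43.TS.Defs
import Pool.Agent.H43.TP.Sup

/-!
# TS Pair: the correlations of `Y` with `X - k Λ_R` are small for almost all `n` (Parseval), `X` locally Fourier uniform
-/

set_option autoImplicit false

namespace Pool.Agent.H43.TS

open Finset
open Pool.Agent.H91.PK (ee)
open Pool.Agent.H91.EHA (Lam lamR)
open Pool.Agent.H43.MP (blk Hn idx Rn)
open Pool.Agent.H43.TP (rf Fh badF pr err1 err2 sup_nb blk_card)

private theorem Pair_cheb (S : Finset ℕ) (f : ℕ → ℝ) (T X : ℝ) (hT : 0 < T)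
    (h : ∑ n ∈ S, f n ^ 2 ≤ X) : ((S.filter (fun n => T < |f n|)).card : ℝ) ≤ X / T ^ 2 := by
  rw [le_div_iff₀ (by positivity)]
  refine le_trans ?_ h
  calc ((S.filter (fun n => T < |f n|)).card : ℝ) * T ^ 2
      = ∑ n ∈ S.filter (fun n => T < |f n|), T ^ 2 := by rw [sum_const, nsmul_eq_mul]
    _ ≤ ∑ n ∈ S.filter (fun n => T < |f n|), f n ^ 2 := by
        refine sum_le_sum fun n hn => ?_
        rw [mem_filter] at hn
        rw [← sq_abs (f n)]
        exact pow_le_pow_left₀ hT.le hn.2.le 2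
    _ ≤ ∑ n ∈ S, f n ^ 2 := sum_le_sum_of_subset_of_nonneg (filter_subset _ _)
        fun n _ _ => sq_nonneg _

open Classical in
/-- the exceptional `n` of a good block -/
theorem pair_blk (H i R : ℕ) (k S M T : ℝ) (X Y : ℕ → ℝ) (hi : 1 ≤ i) (hT : 0 < T)
    (s0 : ∀ α : ℝ, ‖∑ m ∈ blk H (i - 1), ((Fh R k X m : ℝ) : ℂ) * ee (-(α * m))‖ ≤ S)
    (s1 : ∀ α : ℝ, ‖∑ m ∈ blk H i, ((Fh R k X m : ℝ) : ℂ) * ee (-(α * m))‖ ≤ S)
    (s2 : ∀ α : ℝ, ‖∑ m ∈ blk H (i + 1), ((Fh R k X m : ℝ) : ℂ) * ee (-(α * m))‖ ≤ S)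
    (q0 : ∑ m ∈ blk H (i - 1), Y m ^ 2 ≤ M)
    (q1 : ∑ m ∈ blk H i, Y m ^ 2 ≤ M)
    (q2 : ∑ m ∈ blk H (i + 1), Y m ^ 2 ≤ M) :
    (((blk H i).filter (fun n => T < |rf H i Y (Fh R k X) n| ∨ T < |rf H i (Fh R k X) Y n|)).card : ℝ) ≤
      12 * S ^ 2 * M / T ^ 2 := by
  have b1 := Pair_cheb (blk H i) (rf H i Y (Fh R k X)) T _ hT
    ((err1 Y (Fh R k X) H i hi S s0 s1 s2).trans (mul_le_mul_of_nonneg_left q1 (by positivity)))
  have b2 := Pair_cheb (blk H i) (rf H i (Fh R k X) Y) T _ hT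
    ((err2 Y (Fh R k X) H i hi S s1).trans (mul_le_mul_of_nonneg_left
      (add_le_add (add_le_add q0 q1) q2) (by positivity)))
  have hc : (((blk H i).filter (fun n => T < |rf H i Y (Fh R k X) n| ∨
      T < |rf H i (Fh R k X) Y n|)).card : ℝ) ≤
      (((blk H i).filter (fun n => T < |rf H i Y (Fh R k X) n|)).card : ℝ) +
      ((blk H i).filter (fun n => T < |rf H i (Fh R k X) Y n|)).card := by
    rw [filter_or]
    exact_mod_cast card_union_le _ _
  refine hc.trans ((add_le_add b1 b2).trans (le_of_eq ?_))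
  ring

theorem mem_blk_div (H n : ℕ) (hH : 1 ≤ H) : n ∈ blk H (n / H) := by
  unfold blk
  rw [mem_Ico]
  refine ⟨Nat.div_mul_le_self n H, ?_⟩
  have := Nat.lt_mul_div_succ n (show 0 < H by omega)
  rw [mul_comm]
  exact this

/-- the number of `n` in given blocks -/
theorem cnt_blk (N H : ℕ) (hH : 1 ≤ H) (S : Finset ℕ) :
    ((Ioc N (2 * N)).filter (fun n => n / H ∈ S)).card ≤ S.card * H := by
  have h1 : (Ioc N (2 * N)).filter (fun n => n / H ∈ S) ⊆ S.biUnion (blk H) := by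
    intro n hn
    rw [mem_filter] at hn
    rw [mem_biUnion]
    exact ⟨n / H, hn.2, mem_blk_div H n hH⟩
  refine (card_le_card h1).trans (card_biUnion_le.trans ?_)
  rw [sum_congr rfl fun i _ => blk_card H i, sum_const, smul_eq_mul]

/-- the indices of the `n ∈ (N, 2N]` and their neighbours -/
theorem idx_nb (N H : ℕ) (hH : 1 ≤ H) (hHN : 8 * H ≤ N) : ∀ i ∈ Icc (N / H) (2 * N / H),
    1 ≤ i - 1 ∧ i - 1 ∈ idx N H ∧ i ∈ idx N H ∧ i + 1 ∈ idx N H := by
  intro i hi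
  have hq4 : 8 ≤ N / H := by
    rw [Nat.le_div_iff_mul_le (by omega)]
    omega
  rw [mem_Icc] at hi
  unfold idx
  simp only [mem_Icc]
  have t1 : N / (2 * H) = N / H / 2 := by rw [mul_comm, Nat.div_div_eq_div_mul]
  have t2 : 2 * N / H + 1 ≤ 3 * N / H := by
    rw [← Nat.add_div_right _ (by omega)]
    exact Nat.div_le_div_right (by omega)
  omega

theorem idx_lo (N H : ℕ) (hH : 1 ≤ H) (hHN : 8 * H ≤ N) : ∀ i ∈ idx N H, N ≤ 4 * (i * H) := by
  intro i hi
  unfold idx at hi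
  rw [mem_Icc] at hi
  have t1 : N / (2 * H) * H ≤ i * H := Nat.mul_le_mul_right _ hi.1
  have t2 := Nat.lt_mul_div_succ N (show 0 < 2 * H by omega)
  have t3 : 2 * H * (N / (2 * H) + 1) = 2 * (N / (2 * H) * H) + 2 * H := by ring
  omega

theorem idx_up (N H : ℕ) (hHN : 8 * H ≤ N) : ∀ i ∈ idx N H, (i + 1) * H ≤ 4 * N := by
  intro i hi
  unfold idx at hi
  rw [mem_Icc] at hi
  have t1 : (i + 1) * H ≤ (3 * N / H + 1) * H := Nat.mul_le_mul_right _ (by omega)
  have t2 : 3 * N / H * H ≤ 3 * N := Nat.div_mul_le_self _ _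
  nlinarith

theorem div_mem (N H n : ℕ) (hn : n ∈ Ioc N (2 * N)) : n / H ∈ Icc (N / H) (2 * N / H) := by
  rw [mem_Ioc] at hn
  rw [mem_Icc]
  exact ⟨Nat.div_le_div_right (by omega), Nat.div_le_div_right (by omega)⟩

private theorem Pair_num (H L : ℝ) (A C D : ℕ) (hH : 0 < H) (hL : 400 ≤ L) :
    12 * (2 * (H / L ^ (A + C + 2 * D + 6)) * L) ^ 2 * (H * L ^ C) / (H / L ^ D) ^ 2 ≤ H / L ^ (A + 2) := by
  have hL0 : 0 < L := by linarith
  have hL1 : 1 ≤ L := by linarith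
  have e0 : L ^ (A + C + 2 * D + 6) = L ^ A * L ^ C * (L ^ D) ^ 2 * L ^ 6 := by
    rw [pow_add, pow_add, pow_add, pow_mul' L 2 D]
  have e1 : 12 * (2 * (H / L ^ (A + C + 2 * D + 6)) * L) ^ 2 * (H * L ^ C) / (H / L ^ D) ^ 2 =
      48 * H / (L ^ A * L ^ A * L ^ C * (L ^ D) ^ 2 * L ^ 10) := by
    rw [e0]
    field_simp
    ring
  rw [e1, div_le_div_iff₀ (by positivity) (by positivity)]
  have e2 : (48 : ℝ) ≤ L ^ A * L ^ C * (L ^ D) ^ 2 * L ^ 8 := by
    have a1 : 1 ≤ L ^ A := one_le_pow₀ hL1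
    have a2 : 1 ≤ L ^ C := one_le_pow₀ hL1
    have a3 : 1 ≤ (L ^ D) ^ 2 := one_le_pow₀ (one_le_pow₀ hL1)
    have a4 : L ≤ L ^ 8 := by
      calc L = L ^ 1 := (pow_one L).symm
        _ ≤ L ^ 8 := pow_le_pow_right₀ hL1 (by norm_num)
    have a5 : 1 ≤ L ^ A * L ^ C * (L ^ D) ^ 2 :=
      one_le_mul_of_one_le_of_one_le (one_le_mul_of_one_le_of_one_le a1 a2) a3
    calc (48 : ℝ) ≤ L ^ 8 := by linarith
      _ = 1 * L ^ 8 := (one_mul _).symm
      _ ≤ L ^ A * L ^ C * (L ^ D) ^ 2 * L ^ 8 := mul_le_mul_of_nonneg_right a5 (by positivity)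
  calc 48 * H * L ^ (A + 2) = H * (L ^ A * L ^ 2) * 48 := by rw [pow_add]; ring
    _ ≤ H * (L ^ A * L ^ 2) * (L ^ A * L ^ C * (L ^ D) ^ 2 * L ^ 8) :=
        mul_le_mul_of_nonneg_left e2 (by positivity)
    _ = H * (L ^ A * L ^ A * L ^ C * (L ^ D) ^ 2 * L ^ 10) := by ring

theorem badE_card {N H R A C D A' : ℕ} {X k Y : ℕ → ℝ} (hL : 400 ≤ Real.log N) (hH : 1 ≤ H) (hHN : 8 * H ≤ N)
    (hA : A + C + 2 * D + 6 ≤ A')
    (hlam : ∀ i ∈ idx N H, ∑ m ∈ blk H i, lamR R m ^ 2 ≤ H * Real.log N ^ 2)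
    (hY : ∀ i ∈ idx N H, ∑ m ∈ blk H i, Y m ^ 2 ≤ H * Real.log N ^ C)
    (hk : ∀ i ∈ idx N H, i + 1 ∈ idx N H → |k i - k (i + 1)| ≤ 1 / Real.log N ^ A')
    (hb : ((badF N H R A' X k).card : ℝ) ≤ (N : ℝ) / H / Real.log N ^ A') :
    ((badE N H R D X k Y).card : ℝ) ≤ (N : ℝ) / Real.log N ^ (A + 1) := by
  classical
  set L := Real.log N with hLdef
  have hL0 : 0 < L := by linarith
  have hL1 : 1 ≤ L := by linarith
  have hN0 : N ≠ 0 := by
    rintro rfl
    omega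
  have hNpos : (0 : ℝ) < N := by exact_mod_cast Nat.pos_of_ne_zero hN0
  have hH0 : (0 : ℝ) < H := by exact_mod_cast hH
  set A1 := A + C + 2 * D + 6 with hA1
  have hpow : L ^ A1 ≤ L ^ A' := pow_le_pow_right₀ hL1 hA
  have hb' : ((badF N H R A' X k).card : ℝ) ≤ (N : ℝ) / H / L ^ A1 :=
    hb.trans (div_le_div_of_nonneg_left (by positivity) (by positivity) hpow)
  set BF := badF N H R A' X k with hBF
  set idx1 := Icc (N / H) (2 * N / H) with hidx1
  have hidxs := idx_nb N H hH hHN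
  rw [← hidx1] at hidxs
  set BI := idx1.filter (fun i => i - 1 ∈ BF ∨ i ∈ BF ∨ i + 1 ∈ BF) with hBI
  set GI := idx1.filter (fun i => ¬ (i - 1 ∈ BF ∨ i ∈ BF ∨ i + 1 ∈ BF)) with hGI
  have hBIc : (BI.card : ℝ) ≤ 3 * (N / H / L ^ A1) := by
    have t1 : BI ⊆ (BF.image (fun i => i + 1) ∪ BF) ∪ BF.image (fun i => i - 1) := by
      intro i hi
      rw [hBI, mem_filter] at hi
      have := hidxs i hi.1
      simp only [mem_union, mem_image]
      rcases hi.2 with h | h | h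
      · left; left; exact ⟨i - 1, h, by omega⟩
      · left; right; exact h
      · right; exact ⟨i + 1, h, by omega⟩
    have t2 : BI.card ≤ 3 * BF.card := by
      refine (card_le_card t1).trans ((card_union_le _ _).trans ?_)
      have a2 := card_union_le (BF.image (fun i => i + 1)) BF
      have a3 : (BF.image (fun i => i + 1)).card ≤ BF.card := card_image_le
      have a4 : (BF.image (fun i => i - 1)).card ≤ BF.card := card_image_le
      omega
    have t3 : (BI.card : ℝ) ≤ 3 * BF.card := by exact_mod_cast t2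
    linarith
  have hq4 : 8 ≤ N / H := by
    rw [Nat.le_div_iff_mul_le (by omega)]
    omega
  have hGIc : (GI.card : ℝ) ≤ 2 * (N / H) := by
    have t1 : GI.card ≤ 2 * N / H - N / H + 1 := by
      refine (card_le_card (filter_subset _ _)).trans ?_
      rw [hidx1, Nat.card_Icc]
      have : N / H ≤ 2 * N / H := Nat.div_le_div_right (by omega)
      omega
    have t2 : ((2 * N / H : ℕ) : ℝ) ≤ 2 * (N / H) := by
      refine (Nat.cast_div_le).trans (le_of_eq ?_)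
      push_cast
      ring
    have t3 : (1 : ℝ) ≤ ((N / H : ℕ) : ℝ) := by exact_mod_cast (by omega : 1 ≤ N / H)
    have t4 : (GI.card : ℝ) + ((N / H : ℕ) : ℝ) ≤ ((2 * N / H : ℕ) : ℝ) + 1 := by
      have : N / H ≤ 2 * N / H := Nat.div_le_div_right (by omega)
      exact_mod_cast (by omega : GI.card + N / H ≤ 2 * N / H + 1)
    linarith
  -- uniformity
  set S : ℝ := 2 * (H / L ^ A1) * L with hS
  have hfun : ∀ j ∈ idx N H, j ∉ BF → ∀ α : ℝ,
      ‖∑ m ∈ blk H j, ((X m - k j * lamR R m : ℝ) : ℂ) * ee (-(α * m))‖ ≤ H / L ^ A1 := by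
    intro j hj hj2 α
    by_contra hcon
    push Not at hcon
    apply hj2
    rw [hBF]
    unfold badF
    simp only [mem_filter]
    refine ⟨hj, α, lt_of_le_of_lt ?_ hcon⟩
    exact div_le_div_of_nonneg_left hH0.le (by positivity) hpow
  have hS1 : (H : ℝ) / L ^ A1 + 1 / L ^ A1 * (H * L) ≤ S := by
    rw [hS]
    have t1 : (0 : ℝ) < H / L ^ A1 := by positivity
    have t2 : 1 / L ^ A1 * (H * L) = H / L ^ A1 * L := by ring
    rw [t2]
    nlinarith
  have hk' : ∀ i ∈ idx N H, i + 1 ∈ idx N H → |k i - k (i + 1)| ≤ 1 / L ^ A1 := fun i h1 h2 =>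
    (hk i h1 h2).trans (div_le_div_of_nonneg_left zero_le_one (by positivity) hpow)
  have hsup : ∀ i ∈ GI, ∀ j : ℕ, (j = i - 1 ∨ j = i ∨ j = i + 1) → ∀ α : ℝ,
      ‖∑ m ∈ blk H j, ((Fh R (k i) X m : ℝ) : ℂ) * ee (-(α * m))‖ ≤ S := by
    intro i hi j hj α
    rw [hGI, mem_filter] at hi
    obtain ⟨hi1, hi2⟩ := hi
    push Not at hi2
    obtain ⟨k1, k2, k3⟩ := hi2
    obtain ⟨j1, j2, j3, j4⟩ := hidxs i hi1
    refine (sup_nb H j R (k i) (k j) (1 / L ^ A1) (H / L ^ A1) L X hL0.le ?_ ?_ ?_ α).trans hS1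
    · rcases hj with rfl | rfl | rfl
      · exact hfun _ j2 k1
      · exact hfun _ j3 k2
      · exact hfun _ j4 k3
    · rcases hj with rfl | rfl | rfl
      · have := hk' (i - 1) j2 (by rw [show i - 1 + 1 = i by omega]; exact j3)
        rw [show i - 1 + 1 = i by omega, abs_sub_comm] at this
        exact this
      · rw [sub_self, abs_zero]
        positivity
      · exact hk' i j3 j4
    · rcases hj with rfl | rfl | rfl
      · exact hlam _ j2
      · exact hlam _ j3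
      · exact hlam _ j4
  set T : ℝ := H / L ^ D with hT
  have hT0 : 0 < T := by positivity
  set bad : ℕ → Finset ℕ := fun i => (blk H i).filter (fun n => T < |rf H i Y (Fh R (k i) X) n| ∨
      T < |rf H i (Fh R (k i) X) Y n|) with hbad
  have hbadc : ∀ i ∈ GI, ((bad i).card : ℝ) ≤ H / L ^ (A + 2) := by
    intro i hi
    have hi0 := hi
    rw [hGI, mem_filter] at hi
    obtain ⟨j1, j2, j3, j4⟩ := hidxs i hi.1
    refine (pair_blk H i R (k i) S (H * L ^ C) T X Y (by omega) hT0 (hsup i hi0 _ (Or.inl rfl))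
      (hsup i hi0 _ (Or.inr (Or.inl rfl))) (hsup i hi0 _ (Or.inr (Or.inr rfl)))
      (hY _ j2) (hY _ j3) (hY _ j4)).trans ?_
    rw [hS, hT, hA1]
    exact Pair_num H L A C D hH0 hL
  -- the exceptional set
  set X2 := (Ioc N (2 * N)).filter (fun n => n / H ∈ BI) with hX2
  set X4 := GI.biUnion bad with hX4
  have hsub : badE N H R D X k Y ⊆ X2 ∪ X4 := by
    intro n hn
    unfold badE at hn
    rw [mem_filter] at hn
    obtain ⟨hn1, hn2⟩ := hn
    have hidx := div_mem N H n hn1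
    rw [← hidx1] at hidx
    rw [mem_union]
    by_cases hb2 : n / H ∈ BI
    · left
      rw [hX2, mem_filter]
      exact ⟨hn1, hb2⟩
    · right
      have hG : n / H ∈ GI := by
        rw [hGI, mem_filter]
        refine ⟨hidx, fun h => hb2 ?_⟩
        rw [hBI, mem_filter]
        exact ⟨hidx, h⟩
      rw [hX4, mem_biUnion]
      refine ⟨n / H, hG, ?_⟩
      rw [hbad]
      simp only [mem_filter]
      exact ⟨mem_blk_div H n hH, hn2⟩
  have hX2c : (X2.card : ℝ) ≤ 3 * (N / L ^ A1) := by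
    have t1 : (X2.card : ℝ) ≤ BI.card * H := by exact_mod_cast cnt_blk N H hH BI
    refine t1.trans ((mul_le_mul_of_nonneg_right hBIc hH0.le).trans (le_of_eq ?_))
    field_simp
  have hX4c : (X4.card : ℝ) ≤ 2 * (N / L ^ (A + 2)) := by
    have t1 : (X4.card : ℝ) ≤ ∑ i ∈ GI, (H : ℝ) / L ^ (A + 2) := by
      have t2 : (X4.card : ℝ) ≤ ∑ i ∈ GI, ((bad i).card : ℝ) := by
        exact_mod_cast card_biUnion_le
      exact t2.trans (sum_le_sum fun i hi => hbadc i hi)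
    rw [sum_const, nsmul_eq_mul] at t1
    refine t1.trans ((mul_le_mul_of_nonneg_right hGIc (by positivity)).trans (le_of_eq ?_))
    field_simp
  have hcard : ((badE N H R D X k Y).card : ℝ) ≤ X2.card + X4.card := by
    exact_mod_cast (card_le_card hsub).trans (card_union_le _ _)
  refine hcard.trans ?_
  set M : ℝ := N / L ^ (A + 1) with hM
  have hM0 : 0 < M := by positivity
  have mm : ∀ e : ℕ, 1 ≤ e → (N : ℝ) / L ^ (A + 1 + e) ≤ M / 400 := by
    intro e he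
    rw [hM, pow_add L (A + 1) e, div_div]
    refine div_le_div_of_nonneg_left hNpos.le (by positivity) ?_
    refine mul_le_mul_of_nonneg_left ?_ (by positivity)
    calc (400 : ℝ) ≤ L ^ 1 := by linarith
      _ ≤ L ^ e := pow_le_pow_right₀ hL1 he
  have n1 := mm 1 le_rfl
  have n2 := mm (C + 2 * D + 5) (by omega)
  rw [show A + 1 + (C + 2 * D + 5) = A1 by omega] at n2
  rw [show A + 1 + 1 = A + 2 by ring] at n1
  linarith

end Pool.Agent.H43.TS
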