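import Pool.Agent.H43.TS.Pair
import Pool.Agent.H43.TP.M12
import Pool.Agent.H43.TP.Ev
import Pool.Agent.H43.TP.PPx
import Pool.Agent.H43.TP.Blk3
import Pool.Agent.H43.TP.RefN

/-!
# TS Pr: the main term of the indicator of the primes, density `1/log(iH)`

Outside the `n` with a proper prime power at distance `≤ 2H`: `pr m = Λ(m)/log m` in the windows, and `|log m - log(iH)| ≤ 2/(i-1)`.
-/

set_option autoImplicit false

namespace Pool.Agent.H43.TS

open Finset
open Pool.Agent.H91.PK (ee)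
open Pool.Agent.H91.EHA (Lam lamR ramS)
open Pool.Agent.H43.MP (blk Hn idx Rn badP HUX)
open Pool.Agent.H43.TP (rf Fh badF pr ppX badN)
open Pool.Agent.H76.GB (SR)

theorem lamR_abs (R n : ℕ) : |lamR R n| ≤ R := by
  have hcard : ∀ r : ℕ, 1 ≤ r → (((Icc 1 r).filter (fun b => Nat.Coprime b r)).card : ℝ) = r.totient := by
    intro r _
    have h := Nat.filter_coprime_Ico_eq_totient r 1
    rw [← h]
    congr 2
    ext b
    simp only [mem_filter, mem_Icc, mem_Ico]
    constructor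
    · rintro ⟨⟨h1, h2⟩, h3⟩
      exact ⟨⟨h1, by omega⟩, h3.symm⟩
    · rintro ⟨⟨h1, h2⟩, h3⟩
      exact ⟨⟨h1, by omega⟩, h3.symm⟩
  unfold lamR
  refine (abs_sum_le_sum_abs _ _).trans ?_
  calc ∑ c ∈ Icc 1 R, |(ArithmeticFunction.moebius c : ℝ) / (c.totient : ℝ) * ramS c n|
      ≤ ∑ _c ∈ Icc 1 R, (1 : ℝ) := by
        refine sum_le_sum fun c hc => ?_
        rw [mem_Icc] at hc
        have hφ : (0 : ℝ) < c.totient := by
          exact_mod_cast Nat.totient_pos.mpr hc.1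
        have h1 := Pool.Agent.H91.EHA.ramS_eq c n hc.1
        have h2 : |ramS c n| ≤ c.totient := by
          rw [← Real.norm_eq_abs, ← Complex.norm_real, h1]
          refine (norm_sum_le _ _).trans ?_
          simp only [Pool.Agent.H91.PK.LSa_norm_ee, sum_const, nsmul_eq_mul, mul_one]
          exact (hcard c hc.1).le
        rw [abs_mul, abs_div, abs_of_pos hφ]
        have h3 : |(ArithmeticFunction.moebius c : ℝ)| ≤ 1 := by
          exact_mod_cast ArithmeticFunction.abs_moebius_le_one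
        calc |(ArithmeticFunction.moebius c : ℝ)| / c.totient * |ramS c n| ≤ 1 / c.totient * c.totient :=
              mul_le_mul (div_le_div_of_nonneg_right h3 hφ.le) h2 (abs_nonneg _) (by positivity)
          _ = 1 := by field_simp
    _ = R := by simp

/-- `|log m - log(iH)| ≤ 2/(i-1)` near the block -/
private theorem Pr_log (H i m : ℕ) (hH : 1 ≤ H) (hi : 2 ≤ i) (h1 : (i - 1) * H ≤ m) (h2 : m ≤ (i + 2) * H) :
    |Real.log m - Real.log ((i * H : ℕ) : ℝ)| ≤ 2 / ((i - 1 : ℕ) : ℝ) := by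
  obtain ⟨j, rfl⟩ : ∃ j, i = j + 1 := ⟨i - 1, by omega⟩
  rw [Nat.add_sub_cancel] at h1 ⊢
  have hj : 1 ≤ j := by omega
  have hj0 : (0 : ℝ) < j := by exact_mod_cast hj
  have hH0 : (0 : ℝ) < H := by exact_mod_cast hH
  have hjH : (0 : ℝ) < j * H := by positivity
  have hm : (j : ℝ) * H ≤ m := by exact_mod_cast h1
  have hm2 : (m : ℝ) ≤ (j + 1 + 2) * H := by exact_mod_cast h2
  have hm0 : (0 : ℝ) < m := lt_of_lt_of_le hjH hm
  push_cast
  have hx0 : (0 : ℝ) < ((j : ℝ) + 1) * H := by positivity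
  rw [abs_le]
  constructor
  · have e1 : Real.log (((j : ℝ) + 1) * H) - Real.log m = Real.log (((j + 1) * H) / m) := by
      rw [Real.log_div hx0.ne' hm0.ne']
    have e2 := Real.log_le_sub_one_of_pos (show 0 < (((j : ℝ) + 1) * H) / m by positivity)
    have e3 : (((j : ℝ) + 1) * H) / m - 1 ≤ 2 / j := by
      rw [sub_le_iff_le_add, div_le_iff₀ hm0]
      have : (2 / (j : ℝ) + 1) * m ≥ (2 / (j : ℝ) + 1) * (j * H) :=
        mul_le_mul_of_nonneg_left hm (by positivity)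
      have e4 : (2 / (j : ℝ) + 1) * (j * H) = 2 * H + j * H := by
        field_simp
      nlinarith
    linarith
  · have e1 : Real.log m - Real.log (((j : ℝ) + 1) * H) = Real.log (m / ((j + 1) * H)) := by
      rw [Real.log_div hm0.ne' hx0.ne']
    have e2 := Real.log_le_sub_one_of_pos (show 0 < (m : ℝ) / ((j + 1) * H) by positivity)
    have e3 : (m : ℝ) / ((j + 1) * H) - 1 ≤ 2 / j := by
      rw [sub_le_iff_le_add, div_le_iff₀ hx0]
      have e4 : (2 / (j : ℝ) + 1) * ((j + 1) * H) = (j + 1) * H + 2 * H + 2 / j * H := by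
        field_simp
        ring
      have e5 : 0 ≤ 2 / (j : ℝ) * H := by positivity
      nlinarith
    linarith

/-- `|1_P(m) - Λ(m)/ℓ| ≤ ε` -/
private theorem Pr_pt (m : ℕ) (ℓ ε : ℝ) (hℓ : 1 ≤ ℓ) (hε : 0 ≤ ε) (h : |Real.log m - ℓ| ≤ ε)
    (hm : ¬ (IsPrimePow m ∧ ¬ m.Prime)) : |pr m - Lam m / ℓ| ≤ ε := by
  have hℓ0 : 0 < ℓ := by linarith
  unfold pr Lam
  split_ifs with hp
  · rw [ArithmeticFunction.vonMangoldt_apply_prime hp]
    have e : (1 : ℝ) - Real.log m / ℓ = (ℓ - Real.log m) / ℓ := by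
      field_simp
    rw [e, abs_div, abs_of_pos hℓ0, abs_sub_comm, div_le_iff₀ hℓ0]
    nlinarith
  · rw [ArithmeticFunction.vonMangoldt_apply, if_neg]
    · simpa using hε
    · intro h1
      exact hm ⟨h1, hp⟩

theorem badM_pr (θ θ' : ℝ) (h0 : 0 < θ') (h01 : θ' < θ) (h1 : θ < 1 / 3) (hx : HUX θ') (A B D : ℕ) :
    ∃ N0 : ℕ, ∀ N : ℕ, N0 ≤ N →
      ((badM N (Hn θ N) (Rn B N) D pr (fun i => 1 / Real.log ((i * Hn θ N : ℕ) : ℝ))).card : ℝ) ≤
        (N : ℝ) / Real.log N ^ A := by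
  classical
  have h0θ : 0 < θ := h0.trans h01
  obtain ⟨N2, hP⟩ := Pool.Agent.H43.TP.badP_card3 θ θ' h0 h01 h1 hx (A + B + D + 2) B
  obtain ⟨N3, hBN⟩ := Pool.Agent.H43.TP.badN_card θ θ' h0 h01 h1 hx (A + B + D + 2) B
  obtain ⟨N4, hE⟩ := Pool.Agent.H43.TP.ev_large θ 1 h0θ h1 one_pos le_rfl B
  obtain ⟨N5, hpp⟩ := Pool.Agent.H43.TP.ppX_card θ h0θ h1.le (A + 1)
  obtain ⟨N6, hlp⟩ := Pool.Agent.H76.GB.log_pow_le (2 / 3) 16 (by norm_num) (by norm_num) (B + D + 1)
  refine ⟨max (max N2 N3) (max (max N4 N5) N6), fun N hN => ?_⟩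
  simp only [max_le_iff] at hN
  obtain ⟨⟨hn2, hn3⟩, ⟨hn4, hn5⟩, hn6⟩ := hN
  replace hP := hP N hn2
  replace hBN := hBN N hn3
  obtain ⟨f1, f2, f3, f4, f5, f6, f7, f8, -, -, -⟩ := hE N hn4
  replace hpp := hpp N hn5
  replace hlp := hlp N hn6
  rw [one_mul] at f1
  set L := Real.log N with hLdef
  set H := Hn θ N with hHdef
  set R := Rn B N with hRdef
  have hN0 : N ≠ 0 := by
    rintro rfl
    rw [hLdef] at f1
    norm_num at f1
  have hN1 : (1 : ℝ) ≤ N := by exact_mod_cast Nat.one_le_iff_ne_zero.2 hN0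
  have hNpos : (0 : ℝ) < N := by linarith
  have hL0 : 0 < L := by linarith
  have hL1 : 1 ≤ L := by linarith
  have hH0 : (0 : ℝ) < H := by exact_mod_cast f3
  -- `16 H L^(B+D+1) ≤ N`
  have hsmall : 16 * (H : ℝ) * L ^ (B + D + 1) ≤ N := by
    have t0 : (H : ℝ) ≤ (N : ℝ) ^ θ := Nat.floor_le (by positivity)
    have t1 : (N : ℝ) ^ θ ≤ (N : ℝ) ^ (1 / 3 : ℝ) := Real.rpow_le_rpow_of_exponent_le hN1 h1.le
    have t2 : (N : ℝ) = (N : ℝ) ^ (1 / 3 : ℝ) * (N : ℝ) ^ (2 / 3 : ℝ) := by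
      rw [← Real.rpow_add hNpos]
      norm_num
    rw [t2]
    calc 16 * (H : ℝ) * L ^ (B + D + 1) = H * (16 * L ^ (B + D + 1)) := by ring
      _ ≤ (N : ℝ) ^ (1 / 3 : ℝ) * (N : ℝ) ^ (2 / 3 : ℝ) :=
          mul_le_mul (t0.trans t1) hlp (by positivity) (by positivity)
  set A1 := A + B + D + 2 with hA1
  have hRT : (R : ℝ) * ((H : ℝ) / L ^ A1) ≤ H / L ^ (D + 1) := by
    have t1 : (R : ℝ) * ((H : ℝ) / L ^ A1) ≤ L ^ B * ((H : ℝ) / L ^ A1) :=
      mul_le_mul_of_nonneg_right f8 (by positivity)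
    refine t1.trans ?_
    rw [mul_div_assoc', div_le_div_iff₀ (by positivity) (by positivity)]
    have t3 : L ^ B * L ^ (D + 1) ≤ L ^ A1 := by
      rw [← pow_add]
      exact pow_le_pow_right₀ hL1 (by omega)
    calc L ^ B * H * L ^ (D + 1) = H * (L ^ B * L ^ (D + 1)) := by ring
      _ ≤ H * L ^ A1 := mul_le_mul_of_nonneg_left t3 hH0.le
  set BP := badP N H A1 B with hBP
  set BN := badN N H A1 B with hBNd
  have hsub : badM N H R D pr (fun i => 1 / Real.log ((i * H : ℕ) : ℝ)) ⊆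
      ppX N H ∪ ((Ioc N (2 * N)).filter (fun n => n / H ∈ BP) ∪ BN) := by
    intro n hn
    unfold badM at hn
    rw [mem_filter] at hn
    obtain ⟨hn1, hn2⟩ := hn
    by_contra hcon
    simp only [mem_union, not_or] at hcon
    obtain ⟨c1, c2, c3⟩ := hcon
    have hn1' := mem_Ioc.1 hn1
    obtain ⟨j1, j2, j3, j4⟩ := idx_nb N H f3 f4 (n / H) (div_mem N H n hn1)
    have hnb := mem_blk_div H n f3
    have hc2 : n / H ∉ BP := fun h => c2 (by rw [mem_filter]; exact ⟨hn1, h⟩)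
    have a1 := (Pool.Agent.H43.TP.m1 N A1 B H (n / H) n (by omega) j3 hc2 hnb).trans hRT
    have a2 := (Pool.Agent.H43.TP.m2 N A1 B H n f3 (by omega) hn1 c3).trans hRT
    have hlo := idx_lo N H f3 f4 (n / H - 1) j2
    have hlo2 := idx_lo N H f3 f4 (n / H) j3
    set i := n / H with hi
    have hnb' := hnb
    unfold blk at hnb'
    rw [mem_Ico] at hnb'
    have ee1 : (i + 1) * H = i * H + H := by ring
    have ee2 : (i + 2) * H = i * H + 2 * H := by ring
    have ee3 : (i - 1) * H = i * H - H := by rw [Nat.sub_mul, one_mul]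
    have hiH : H ≤ i * H := Nat.le_mul_of_pos_left H (by omega)
    -- the density
    set ℓ : ℝ := Real.log ((i * H : ℕ) : ℝ) with hℓ
    have hℓ1 : 1 ≤ ℓ := by
      have t1 : (N : ℝ) / 4 ≤ ((i * H : ℕ) : ℝ) := by
        have : (N : ℝ) ≤ 4 * ((i * H : ℕ) : ℝ) := by exact_mod_cast hlo2
        linarith
      have t2 := Real.log_le_log (by positivity) t1
      rw [Real.log_div hNpos.ne' (by norm_num)] at t2
      have t3 : Real.log 4 ≤ 3 := by
        have := Real.log_le_sub_one_of_pos (by norm_num : (0 : ℝ) < 4)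
        linarith
      linarith
    have hℓ0 : 0 < ℓ := by linarith
    have hj0 : (0 : ℝ) < ((i - 1 : ℕ) : ℝ) := by exact_mod_cast (by omega : 0 < i - 1)
    set ε : ℝ := 2 / ((i - 1 : ℕ) : ℝ) with hε
    have hε0 : 0 ≤ ε := by positivity
    have hεN : H * (R * ε) ≤ H / L ^ (D + 1) := by
      have t1 : (N : ℝ) ≤ 4 * (((i - 1 : ℕ) : ℝ) * H) := by exact_mod_cast hlo
      have t2 : ε ≤ 8 * H / N := by
        rw [hε, div_le_div_iff₀ hj0 hNpos]
        nlinarith
      have t3 : (R : ℝ) * ε ≤ L ^ B * (8 * H / N) := mul_le_mul f8 t2 hε0 (by positivity)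
      have t4 : L ^ B * (8 * H / N) ≤ 1 / L ^ (D + 1) := by
        rw [mul_div_assoc', div_le_div_iff₀ hNpos (by positivity), one_mul]
        have : L ^ (B + D + 1) = L ^ B * L ^ (D + 1) := by rw [← pow_add]; congr 1
        rw [this] at hsmall
        have t5 : 0 ≤ (H : ℝ) * (L ^ B * L ^ (D + 1)) := by positivity
        nlinarith
      calc (H : ℝ) * (R * ε) ≤ H * (1 / L ^ (D + 1)) :=
            mul_le_mul_of_nonneg_left (t3.trans t4) hH0.le
        _ = H / L ^ (D + 1) := by ring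
    have w2 : ∀ m : ℕ, n ≤ m + 2 * H → m ≤ n + 2 * H → ¬ (IsPrimePow m ∧ ¬ m.Prime) := by
      intro m hm1 hm2 hm3
      apply c1
      unfold ppX
      simp only [mem_filter]
      exact ⟨hn1, m, hm1, hm2, hm3.1, hm3.2⟩
    have hpt : ∀ m : ℕ, (i - 1) * H ≤ m → m ≤ (i + 2) * H → n ≤ m + 2 * H → m ≤ n + 2 * H →
        |pr m - Lam m / ℓ| ≤ ε := fun m b1 b2 b3 b4 =>
      Pr_pt m ℓ ε hℓ1 hε0 (Pr_log H i m f3 (by omega) b1 b2) (w2 m b3 b4)
    have hpu : ∀ u ∈ blk H i, |pr u - Lam u / ℓ| ≤ ε := by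
      intro u hu
      unfold blk at hu
      rw [mem_Ico] at hu
      refine hpt u ?_ ?_ ?_ ?_ <;> omega
    have hpv : ∀ u ∈ blk H i, |pr (2 * n - u) - Lam (2 * n - u) / ℓ| ≤ ε := by
      intro u hu
      unfold blk at hu
      rw [mem_Ico] at hu
      refine hpt _ ?_ ?_ ?_ ?_ <;> omega
    have hsum : ∀ f : ℕ → ℝ, (∀ u ∈ blk H i, |f u| ≤ R * ε) → |∑ u ∈ blk H i, f u| ≤ H / L ^ (D + 1) := by
      intro f hf
      refine (abs_sum_le_sum_abs _ _).trans ((sum_le_sum hf).trans ?_)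
      rw [sum_const, Pool.Agent.H43.TP.blk_card, nsmul_eq_mul]
      exact hεN
    have e1 : rf H i (lamR R) pr n = (1 / ℓ) * rf H i (lamR R) Lam n +
        ∑ u ∈ blk H i, lamR R u * (pr (2 * n - u) - Lam (2 * n - u) / ℓ) := by
      unfold rf
      rw [mul_sum, ← sum_add_distrib]
      refine sum_congr rfl fun u _ => ?_
      ring
    have e2 : rf H i pr (lamR R) n = (1 / ℓ) * rf H i Lam (lamR R) n +
        ∑ u ∈ blk H i, (pr u - Lam u / ℓ) * lamR R (2 * n - u) := by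
      unfold rf
      rw [mul_sum, ← sum_add_distrib]
      refine sum_congr rfl fun u _ => ?_
      ring
    have g1 : |∑ u ∈ blk H i, lamR R u * (pr (2 * n - u) - Lam (2 * n - u) / ℓ)| ≤ H / L ^ (D + 1) := by
      refine hsum _ fun u hu => ?_
      rw [abs_mul]
      exact mul_le_mul (lamR_abs R u) (hpv u hu) (abs_nonneg _) (Nat.cast_nonneg _)
    have g2 : |∑ u ∈ blk H i, (pr u - Lam u / ℓ) * lamR R (2 * n - u)| ≤ H / L ^ (D + 1) := by
      refine hsum _ fun u hu => ?_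
      rw [abs_mul, mul_comm]
      exact mul_le_mul (lamR_abs R _) (hpu u hu) (abs_nonneg _) (Nat.cast_nonneg _)
    have hinv : |1 / ℓ| ≤ 1 := by
      rw [abs_of_pos (by positivity), div_le_one hℓ0]
      exact hℓ1
    have hfin : ∀ a b : ℝ, |a - H * SR R (2 * n)| ≤ H / L ^ (D + 1) → |b| ≤ H / L ^ (D + 1) →
        |(1 / ℓ) * a + b - (1 / ℓ) * (H * SR R (2 * n))| ≤ H / L ^ D := by
      intro a b ha hb
      have e : (1 / ℓ) * a + b - (1 / ℓ) * (H * SR R (2 * n)) = (1 / ℓ) * (a - H * SR R (2 * n)) + b := by ring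
      rw [e]
      refine (abs_add_le _ _).trans ?_
      rw [abs_mul]
      have t1 : |1 / ℓ| * |a - H * SR R (2 * n)| ≤ 1 * (H / L ^ (D + 1)) :=
        mul_le_mul hinv ha (abs_nonneg _) zero_le_one
      have t2 : (H : ℝ) / L ^ (D + 1) * 2 ≤ H / L ^ D := by
        rw [pow_succ, ← div_div]
        have : 0 ≤ (H : ℝ) / L ^ D := by positivity
        rw [div_mul_eq_mul_div, div_le_iff₀ hL0]
        nlinarith
      linarith
    rw [e1, e2] at hn2
    rcases hn2 with h | h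
    · exact absurd (hfin _ _ a2 g1) (not_le.2 h)
    · exact absurd (hfin _ _ a1 g2) (not_le.2 h)
  have hcnt : ((badM N H R D pr (fun i => 1 / Real.log ((i * H : ℕ) : ℝ))).card : ℝ) ≤
      (ppX N H).card + (BP.card * H + BN.card) := by
    have t1 := (card_le_card hsub).trans (card_union_le _ _)
    have t2 := card_union_le ((Ioc N (2 * N)).filter (fun n => n / H ∈ BP)) BN
    have t3 := cnt_blk N H f3 BP
    exact_mod_cast (by omega)
  refine hcnt.trans ?_
  have e1 : (BP.card : ℝ) * H ≤ N / L ^ A1 := by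
    refine (mul_le_mul_of_nonneg_right hP hH0.le).trans (le_of_eq ?_)
    field_simp
  have e2 : (N : ℝ) / L ^ A1 ≤ N / L ^ (A + 1) :=
    div_le_div_of_nonneg_left hNpos.le (by positivity) (pow_le_pow_right₀ hL1 (by omega))
  have e3 : 3 * ((N : ℝ) / L ^ (A + 1)) ≤ N / L ^ A := by
    rw [pow_succ, ← div_div, mul_div_assoc', div_le_iff₀ hL0]
    have : 0 ≤ (N : ℝ) / L ^ A := by positivity
    nlinarith
  linarith

end Pool.Agent.H43.TS
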